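import Pool.Agent.FCW.Targets

/-!
# The trace form of Mirimanoff's congruence: targets

Notation of `Pool.Agent.FCW`.  Every target is a statement `T_X : Prop`, proved as
`theorem p_X : T_X` in the file `Pool/Agent/FCM/X.lean`.
-/

open NumberField Polynomial

namespace Pool.Agent.FCM

open Pool.Agent.FCW

variable (p : ℕ) [Fact p.Prime]

/-- `F(X^j)`, `F = A + T X + B X²`, over `ZMod p` -/
noncomputable def Fk (A T B : ZMod p) (j : ℕ) : (ZMod p)[X] :=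
  C A + C T * X ^ j + C B * X ^ (2 * j)

/-- the product of the `F(X^(s/u))`, `u` in the lower half -/
noncomputable def Wp (A T B s : ZMod p) : (ZMod p)[X] :=
  ∏ u ∈ half p, Fk p A T B (s * ((u⁻¹ : (ZMod p)ˣ) : ZMod p)).val

/-- the weights -/
def cw (n : ZMod p) : ZMod p := if n ^ 2 = 4 then 1 / 8 else 2 / (4 - n ^ 2)

/-- the transformed weights -/
def Kc (m : ℕ) : ZMod p :=
  (-1) ^ m * (Hs p / 2 - ∑ i ∈ Finset.Ico 1 m, (-1) ^ i / (i : ZMod p)) - 1 / (2 * m)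

/-- `∑ (-1)^(m-1) t^m / m`, which is `((1 + t)^p - 1 - t^p) / p` modulo `p` -/
noncomputable def Sf {k : Type} [Field k] (t : k) : k :=
  ∑ m ∈ Finset.Ico 1 p, (-1) ^ (m - 1) * t ^ m / (m : k)

/-- the coefficients of `t X / (1 + t X)` in the group ring -/
noncomputable def aC {k : Type} [Field k] (t : k) (m : ZMod p) : k :=
  if m = 0 then t ^ p / (1 + t ^ p) else -(-t) ^ m.val / (1 + t ^ p)

/-- The key equation modulo `p`. -/
def T_MPA : Prop := ∀ (p : ℕ) [Fact p.Prime], 5 ≤ p → ∀ A T B : ℤ, ¬ (p : ℤ) ∣ A + T + B →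
  ∀ (γ : Oc p) (n i : ℕ) (e : ℤ), KeyEq p (Fz p A T B) γ n i e →
  (X - 1 : (ZMod p)[X]) ^ (p - 1) ∣
    Wp p (A : ZMod p) (T : ZMod p) (B : ZMod p) 1 -
      X ^ i * Wp p (A : ZMod p) (T : ZMod p) (B : ZMod p) (-1)

/-- The logarithmic derivative of the key equation modulo `p`. -/
def T_LGD : Prop := ∀ (p : ℕ) [Fact p.Prime], 5 ≤ p → ∀ (k : Type) [Field k]
  [Algebra (ZMod p) k] (A T B : ZMod p) (i : ℕ), A + T + B ≠ 0 →
  (i : ZMod p) * (A + T + B) = 2 * (T + 2 * B) * Hs p →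
  (X - 1 : (ZMod p)[X]) ^ (p - 1) ∣ Wp p A T B 1 - X ^ i * Wp p A T B (-1) →
  ∀ a : ZMod p → k,
  (∀ m : ZMod p, algebraMap (ZMod p) k A * a m + algebraMap (ZMod p) k T * a (m - 1) +
    algebraMap (ZMod p) k B * a (m - 2) = (if m = 1 then algebraMap (ZMod p) k T else 0) +
      (if m = 2 then 2 * algebraMap (ZMod p) k B else 0)) →
  algebraMap (ZMod p) k (A + T + B) * a 0 = algebraMap (ZMod p) k (T + 2 * B) →
  ∀ n : ZMod p, n ≠ 0 → ∑ u ∈ half p, algebraMap (ZMod p) k ((u⁻¹ : (ZMod p)ˣ) : ZMod p) *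
    (a (n * (u : ZMod p)) + a (-(n * (u : ZMod p)))) = 0

/-- The identity of harmonic sums. -/
def T_KTL : Prop := ∀ (p : ℕ) [Fact p.Prime], 5 ≤ p → ∀ m : ℕ, 1 ≤ m → m < p →
  ∑ u ∈ half p, ((u⁻¹ : (ZMod p)ˣ) : ZMod p) * cw p ((m : ZMod p) * ((u⁻¹ : (ZMod p)ˣ) : ZMod p)) =
    Kc p m

/-- The generating function of the transformed weights. -/
def T_FSM : Prop := ∀ (p : ℕ) [Fact p.Prime], 5 ≤ p → ∀ (k : Type) [Field k]
  [Algebra (ZMod p) k] (t : k), Sf p t = 0 →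
  (t = 1 → Hs p = 0) ∧
  (t ≠ 1 → ∑ m ∈ Finset.Ico 1 p, algebraMap (ZMod p) k (Kc p m) * (-t) ^ m =
    algebraMap (ZMod p) k (Hs p) / 2 * ((t + t ^ p) / (1 - t)))

/-- `((x + y)^p - x^p - y^p) / p` vanishes at the primes above `p`. -/
def T_SFQ : Prop := ∀ (K : Type) [Field K] [NumberField K] (τ : 𝓞 K ≃+* 𝓞 K), IsConj K τ →
  ∀ (p : ℕ) [Fact p.Prime], 5 ≤ p → ∀ x y z : 𝓞 K, x ^ p + y ^ p + z ^ p = 0 →
  ∀ (k : Type) [Field k] [Algebra (ZMod p) k] (π : 𝓞 K →+* k), π x ≠ 0 →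
  Sf p (π y / π x) = 0

/-- Mirimanoff's congruence, trace form. -/
def T_MIR : Prop := ∀ (p : ℕ) [Fact p.Prime], 5 ≤ p → ¬ p ^ 2 ∣ 2 ^ (p - 1) - 1 →
  ∀ A T B : ℤ, Prim A T B → ¬ (p : ℤ) ∣ A + T + B →
  (∃ b : Ideal (Oc p), Ideal.span {Fz p A T B} = b ^ p) →
  ∀ (k : Type) [Field k] [Algebra (ZMod p) k] (t₁ t₂ : k),
  (T : k) = A * (t₁ + t₂) → (B : k) = A * (t₁ * t₂) → Sf p t₁ = 0 → Sf p t₂ = 0 →
  (p : ℤ) ∣ T * (A - B)

end Pool.Agent.FCM
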