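import Mathlib
import Pool.Agent.FCM.Targets
import Pool.Agent.FCW.HARM

/-!
# The generating function of the transformed weights
-/

namespace Pool.Agent.FCM

open Pool.Agent.FCW

namespace FSM_

/-- summation by parts -/
theorem parts {k : Type} [Field k] (t : k) (a : ℕ → k) (n : ℕ) (hn : 1 ≤ n) :
    (1 - t) * ∑ m ∈ Finset.Ico 1 n, t ^ m * ∑ i ∈ Finset.Ico 1 m, a i =
      t * ∑ i ∈ Finset.Ico 1 n, a i * t ^ i - t ^ n * ∑ i ∈ Finset.Ico 1 n, a i := by
  induction n, hn using Nat.le_induction with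
  | base => simp
  | succ n hn ih =>
    rw [Finset.sum_Ico_succ_top hn, Finset.sum_Ico_succ_top hn, Finset.sum_Ico_succ_top hn,
      mul_add, ih, pow_succ]
    ring

theorem geom {k : Type} [Field k] (t : k) (n : ℕ) (hn : 1 ≤ n) :
    (1 - t) * ∑ m ∈ Finset.Ico 1 n, t ^ m = t - t ^ n := by
  induction n, hn using Nat.le_induction with
  | base => simp
  | succ n hn ih =>
    rw [Finset.sum_Ico_succ_top hn, mul_add, ih, pow_succ]
    ring

variable (p : ℕ) [Fact p.Prime]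

theorem alt' (hp3 : 3 ≤ p) (k : Type) [Field k] [Algebra (ZMod p) k] :
    ∑ i ∈ Finset.Ico 1 p, (-1) ^ i / (i : k) = algebraMap (ZMod p) k (Hs p) := by
  have h := HARM_.alt (p := p) hp3
  have h1 := congrArg (algebraMap (ZMod p) k) h
  rw [map_neg, map_sum] at h1
  have h2 : algebraMap (ZMod p) k (Hs p) =
      - ∑ x ∈ Finset.Ico 1 p, algebraMap (ZMod p) k ((-1) ^ (x - 1) * ((x : ZMod p))⁻¹) := by
    rw [h1, neg_neg]
  rw [h2, ← Finset.sum_neg_distrib]
  refine Finset.sum_congr rfl fun i hi => ?_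
  have hi1 := (Finset.mem_Ico.mp hi).1
  obtain ⟨j, rfl⟩ := Nat.exists_eq_add_of_le' hi1
  rw [map_mul, map_pow, map_neg, map_one, map_inv₀, map_natCast, Nat.add_sub_cancel, pow_succ,
    div_eq_mul_inv]
  ring

theorem sigma (k : Type) [Field k] (t : k) :
    ∑ m ∈ Finset.Ico 1 p, (-1) ^ m / (m : k) * t ^ m = - Sf p t := by
  unfold Sf
  rw [← Finset.sum_neg_distrib]
  refine Finset.sum_congr rfl fun i hi => ?_
  have hi1 := (Finset.mem_Ico.mp hi).1
  obtain ⟨j, rfl⟩ := Nat.exists_eq_add_of_le' hi1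
  rw [Nat.add_sub_cancel, pow_succ (-1 : k)]
  ring

theorem map_Kc (k : Type) [Field k] [Algebra (ZMod p) k] (m : ℕ) (t : k) :
    algebraMap (ZMod p) k (Kc p m) * (-t) ^ m =
      algebraMap (ZMod p) k (Hs p) / 2 * t ^ m -
        t ^ m * (∑ i ∈ Finset.Ico 1 m, (-1) ^ i / (i : k)) -
        1 / 2 * ((-1) ^ m / (m : k) * t ^ m) := by
  unfold Kc
  have h1 : ((-1 : k) ^ m) * (-1) ^ m = 1 := by
    rw [← mul_pow]
    simp
  have h2 : (-t) ^ m = (-1) ^ m * t ^ m := by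
    rw [← mul_pow]
    ring
  simp only [map_sub, map_mul, map_div₀, map_pow, map_neg, map_one, map_sum, map_natCast,
    map_ofNat]
  rw [h2]
  have h3 : ((-1 : k) ^ m * (algebraMap (ZMod p) k (Hs p) / 2 -
      ∑ x ∈ Finset.Ico 1 m, (-1) ^ x / (x : k)) - 1 / (2 * (m : k))) * ((-1) ^ m * t ^ m) =
      (((-1 : k) ^ m) * (-1) ^ m) * (algebraMap (ZMod p) k (Hs p) / 2 -
      ∑ x ∈ Finset.Ico 1 m, (-1) ^ x / (x : k)) * t ^ m -
      1 / (2 * (m : k)) * ((-1) ^ m * t ^ m) := by ring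
  rw [h3, h1]
  rw [one_div, mul_inv]
  ring

end FSM_

open FSM_

theorem p_FSM : T_FSM := by
  intro p _ hp k _ _ t hSf
  have hp3 : 3 ≤ p := by omega
  have hH := alt' p hp3 k
  have hS := sigma p k t
  rw [hSf, neg_zero] at hS
  constructor
  · intro ht
    subst ht
    have h1 : algebraMap (ZMod p) k (Hs p) = 0 := by
      rw [← hH, ← hS]
      refine Finset.sum_congr rfl fun i _ => ?_
      rw [one_pow, mul_one]
    exact (map_eq_zero _).mp h1
  · intro ht
    have ht' : 1 - t ≠ 0 := sub_ne_zero.mpr (Ne.symm ht)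
    have h1 := parts t (fun i => (-1) ^ i / (i : k)) p (by omega)
    have h2 := geom t p (by omega)
    rw [hS, hH, mul_zero, zero_sub] at h1
    rw [eq_comm, ← mul_div_assoc, div_eq_iff ht']
    simp only [map_Kc]
    rw [Finset.sum_sub_distrib, Finset.sum_sub_distrib, ← Finset.mul_sum, ← Finset.mul_sum, hS,
      mul_zero, sub_zero, sub_mul]
    have h3 : algebraMap (ZMod p) k (Hs p) / 2 * (∑ i ∈ Finset.Ico 1 p, t ^ i) * (1 - t) =
        algebraMap (ZMod p) k (Hs p) / 2 * ((1 - t) * ∑ i ∈ Finset.Ico 1 p, t ^ i) := by ring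
    have h4 : (∑ x ∈ Finset.Ico 1 p, t ^ x * ∑ i ∈ Finset.Ico 1 x, (-1) ^ i / (i : k)) * (1 - t) =
        (1 - t) * ∑ x ∈ Finset.Ico 1 p, t ^ x * ∑ i ∈ Finset.Ico 1 x, (-1) ^ i / (i : k) := by ring
    rw [h3, h4, h1, h2]
    have h5 : (2 : k) ≠ 0 := by
      have := HARM_.two_ne (p := p) hp3
      have h6 : algebraMap (ZMod p) k 2 ≠ 0 := by
        rw [Ne, map_eq_zero]
        exact this
      rwa [map_ofNat] at h6
    field_simp
    ring

end Pool.Agent.FCM
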