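import Pool.Agent.FCM.Loc
import Pool.Agent.FCW.EPK

/-!
# First case solutions are locally trivial: assembly
-/

open NumberField IsDedekindDomain

namespace Pool.Agent.FCM

open Pool.Agent.FCW

namespace Final_

variable {p : ℕ} [Fact p.Prime]

/-- the final arithmetic -/
theorem arith (h7 : 7 ≤ p) {a b c T₁ T₂ T₃ d r₁ : ℤ} (e₁ : (2 : ℤ) ∣ a + b + c + T₁)
    (e₂ : (2 : ℤ) ∣ a + b + c + T₂) (e₃ : (2 : ℤ) ∣ a + b + c + T₃) (ha : ¬ (p : ℤ) ∣ a)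
    (hb : ¬ (p : ℤ) ∣ b) (hc : ¬ (p : ℤ) ∣ c) (f₁ : (p : ℤ) ∣ 2 * a + T₁ + T₂)
    (f₂ : (p : ℤ) ∣ 2 * b + T₁ + T₃) (f₃ : (p : ℤ) ∣ 2 * c + T₂ + T₃)
    (m₁ : (p : ℤ) ∣ T₁ * (a - b)) (m₂ : (p : ℤ) ∣ T₂ * (a - c))
    (R₁ : Fin_.Rel p a T₁ b) (R₂ : Fin_.Rel p a T₂ c) (R₃ : Fin_.Rel p b T₃ c)
    (g₁ : T₁ ^ 2 - 4 * a * b = r₁ ^ 2 * d) :
    d % 8 = 5 ∧ legendreSym p d = legendreSym p (-3) ∧
      (¬ (2 : ℤ) ∣ a ∧ ¬ (2 : ℤ) ∣ b ∧ ¬ (2 : ℤ) ∣ c ∧ ¬ (2 : ℤ) ∣ T₁) ∧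
      ((p : ℤ) ∣ a - b ∧ (p : ℤ) ∣ T₁ + b) := by
  have hp : Prime (p : ℤ) := Nat.prime_iff_prime_int.mp Fact.out
  have cz : ∀ n : ℤ, (p : ℤ) ∣ n → ((n : ℤ) : ZMod p) = 0 := fun n h =>
    (ZMod.intCast_zmod_eq_zero_iff_dvd n p).mpr h
  have zc : ∀ n : ℤ, ((n : ℤ) : ZMod p) = 0 → (p : ℤ) ∣ n := fun n h =>
    (ZMod.intCast_zmod_eq_zero_iff_dvd n p).mp h
  have hsmall : ∀ n : ℕ, 0 < n → n < p → ¬ (p : ℤ) ∣ (n : ℤ) := by
    intro n h1 h2 h3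
    have := Nat.le_of_dvd h1 (Int.natCast_dvd_natCast.mp h3)
    omega
  have two : (2 : ZMod p) ≠ 0 := by
    have := Fin_.cast_ne (p := p) (n := 2) (by norm_num) (by omega)
    exact_mod_cast this
  have A0 : (a : ZMod p) ≠ 0 := fun h => ha (zc a h)
  have B0 : (b : ZMod p) ≠ 0 := fun h => hb (zc b h)
  have C0 : (c : ZMod p) ≠ 0 := fun h => hc (zc c h)
  have F₁ := cz _ f₁
  have F₂ := cz _ f₂
  have F₃ := cz _ f₃
  have M₁ := cz _ m₁
  have M₂ := cz _ m₂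
  push_cast at F₁ F₂ F₃ M₁ M₂
  have G₁ : (a : ZMod p) + b + T₁ - c = 0 := by
    apply mul_left_cancel₀ two
    linear_combination F₁ + F₂ - F₃
  have G₂ : (a : ZMod p) + c + T₂ - b = 0 := by
    apply mul_left_cancel₀ two
    linear_combination F₁ + F₃ - F₂
  have G₃ : (b : ZMod p) + c + T₃ - a = 0 := by
    apply mul_left_cancel₀ two
    linear_combination F₂ + F₃ - F₁
  have hab : (b : ZMod p) = a ∧ (c : ZMod p) = a := by
    rcases mul_eq_zero.mp M₁ with h1 | h1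
    · exfalso
      have h2 : (T₂ : ZMod p) = -(2 * a) := by linear_combination G₂ + G₁ - h1
      rw [h2] at M₂
      rcases mul_eq_zero.mp M₂ with h3 | h3
      · exact mul_ne_zero two A0 (neg_eq_zero.mp h3)
      · apply B0
        linear_combination G₁ - h1 - h3
    · have h2 : (b : ZMod p) = a := by linear_combination -h1
      refine ⟨h2, ?_⟩
      have h3 : (T₂ : ZMod p) = -c := by linear_combination G₂ - h1
      rw [h3] at M₂
      rcases mul_eq_zero.mp M₂ with h4 | h4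
      · exact absurd (neg_eq_zero.mp h4) C0
      · linear_combination -h4
  obtain ⟨hba, hca⟩ := hab
  have t1 : (T₁ : ZMod p) = -a := by linear_combination G₁ - hba + hca
  have t2 : (T₂ : ZMod p) = -a := by linear_combination G₂ + hba - hca
  have t3 : (T₃ : ZMod p) = -a := by linear_combination G₃ - hba - hca
  -- parities
  have hodd : ¬ (2 : ℤ) ∣ a ∧ ¬ (2 : ℤ) ∣ b ∧ ¬ (2 : ℤ) ∣ c ∧ ¬ (2 : ℤ) ∣ T₁ := by
    by_cases hT : (2 : ℤ) ∣ T₁
    · exfalso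
      have hT₂ : (2 : ℤ) ∣ T₂ := by omega
      have hT₃ : (2 : ℤ) ∣ T₃ := by omega
      by_cases ea : (2 : ℤ) ∣ a
      · have h1 := cz _ (R₁.m4 ea hT)
        push_cast at h1
        apply A0
        linear_combination h1 - t1
      by_cases eb : (2 : ℤ) ∣ b
      · have h1 := cz _ (R₁.m0 eb hT)
        push_cast at h1
        apply A0
        linear_combination h1 - t1 - 2 * hba
      have ec : (2 : ℤ) ∣ c := by omega
      have h1 := cz _ (R₂.m0 ec hT₂)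
      push_cast at h1
      apply A0
      linear_combination h1 - t2 - 2 * hca
    · have hT₂ : ¬ (2 : ℤ) ∣ T₂ := by omega
      have hT₃ : ¬ (2 : ℤ) ∣ T₃ := by omega
      by_cases ea : (2 : ℤ) ∣ a
      · exfalso
        by_cases eb : (2 : ℤ) ∣ b
        · have h1 := cz _ (R₂.m3 ea (by omega))
          push_cast at h1
          apply A0
          linear_combination h1 - t2 + hca
        · have h1 := cz _ (R₁.m3 ea (by omega))
          push_cast at h1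
          apply A0
          linear_combination h1 - t1 + hba
      · by_cases eb : (2 : ℤ) ∣ b
        · exfalso
          have h1 := cz _ (R₁.m1 eb (by omega))
          push_cast at h1
          apply A0
          linear_combination -h1 - t1 - 3 * hba
        · exact ⟨ea, eb, by omega, hT⟩
  obtain ⟨oa, ob, oc, oT⟩ := hodd
  have hab2 : ¬ (2 : ℤ) ∣ a * b := by
    intro h
    rcases Int.prime_two.dvd_or_dvd h with h | h
    · exact oa h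
    · exact ob h
  have h3n : ¬ (p : ℤ) ∣ -3 := by
    intro h
    have h1 : (p : ℤ) ∣ ((3 : ℕ) : ℤ) := by
      have := (dvd_neg).mp h
      exact_mod_cast this
    exact hsmall 3 (by norm_num) (by omega) h1
  have h1n : ¬ (p : ℤ) ∣ 1 := by
    intro h
    exact hsmall 1 (by norm_num) (by omega) (by exact_mod_cast h)
  refine ⟨(Fin_.mod8 oT g₁).2 hab2, ?_, ⟨oa, ob, oc, oT⟩, zc _ ?_, zc _ ?_⟩
  · refine Fin_.leg_of (s := 1) (r := r₁) ha h3n h1n ?_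
    rw [← g₁]
    apply zc
    push_cast
    rw [hba, t1]
    ring
  · push_cast
    linear_combination -hba
  · push_cast
    linear_combination t1 + hba

end Final_

/-- the coprime case -/
theorem core (hDATA : T_DATA) (hPAR : T_PAR) (hMODP : T_MODP) (hDISC : T_DISC)
    (hPOW : T_POW) (hREC : T_REC) (hSFQ : T_SFQ) (hMIR : T_MIR) (K : Type) [Field K]
    [NumberField K] (hK : Module.finrank ℚ K = 2)
    (d : ℤ) (hd : Squarefree d) (hd1 : d ≠ 1) (s : K) (hs : s ^ 2 = (d : K))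
    {τ : 𝓞 K ≃+* 𝓞 K} (hτ : IsConj K τ) (p : ℕ)
    [Fact p.Prime] (h7 : 7 ≤ p) (hW : ¬ p ^ 2 ∣ 2 ^ (p - 1) - 1) (x y z : 𝓞 K)
    (hco : IsCoprime (x * y * z) (p : 𝓞 K)) (h : x ^ p + y ^ p = z ^ p) :
    d % 8 = 5 ∧ legendreSym p d = legendreSym p (-3) ∧
      ∀ Q : HeightOneSpectrum (𝓞 K), ((2 : 𝓞 K) ∈ Q.asIdeal ∨ (p : 𝓞 K) ∈ Q.asIdeal) →
        Lc K Q (x : K) (y : K) (z : K) := by
  have hp : p.Prime := Fact.out
  have h5 : 5 ≤ p := by omega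
  have hodd : Odd p := hp.odd_of_ne_two (by omega)
  have hirr : ∀ r : ℚ, s ≠ (r : K) := by
    intro r hr
    apply hd1
    rw [hr] at hs
    have h1 : (r ^ 2 : ℚ) = (d : ℚ) := by exact_mod_cast hs
    have h2 : ∃ n : ℤ, r = n := by
      have h3 : IsIntegral ℤ r := by
        refine ⟨Polynomial.X ^ 2 - Polynomial.C d, Polynomial.monic_X_pow_sub_C d two_ne_zero, ?_⟩
        rw [Polynomial.eval₂_sub, Polynomial.eval₂_pow, Polynomial.eval₂_X,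
          Polynomial.eval₂_C, h1]
        simp
      obtain ⟨n, hn⟩ := IsIntegrallyClosed.isIntegral_iff.mp h3
      exact ⟨n, by rw [← hn]; simp⟩
    obtain ⟨n, rfl⟩ := h2
    have h3 : n ^ 2 = d := by exact_mod_cast h1
    have h4 : IsUnit n := hd n ⟨1, by rw [← h3]; ring⟩
    rcases Int.isUnit_iff.mp h4 with h5 | h5 <;> rw [← h3, h5] <;> norm_num
  have hpK : ¬ IsUnit ((p : ℕ) : 𝓞 K) := by
    intro hu
    have h1 : IsUnit (Algebra.norm ℤ ((p : ℕ) : 𝓞 K)) := hu.map (Algebra.norm ℤ)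
    have h2 : ((p : ℕ) : 𝓞 K) = algebraMap ℤ (𝓞 K) (p : ℤ) := by simp
    rw [h2, Algebra.norm_algebraMap, RingOfIntegers.rank, hK] at h1
    have h3 : IsUnit (p : ℤ) := (isUnit_pow_iff two_ne_zero).mp h1
    rw [Int.isUnit_iff] at h3
    omega
  have hne : ∀ w v : 𝓞 K, w * v = x * y * z → w ≠ 0 := by
    rintro w v hw rfl
    rw [zero_mul] at hw
    rw [← hw, isCoprime_zero_left] at hco
    exact hpK hco
  have hx : x ≠ 0 := hne x (y * z) (by ring)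
  have hy : y ≠ 0 := hne y (x * z) (by ring)
  have hz : z ≠ 0 := hne z (x * y) (by ring)
  have h0 : x ^ p + y ^ p + (-z) ^ p = 0 := by
    rw [hodd.neg_pow, h]
    ring
  have hco1 : IsCoprime (x * y * -z) (p : 𝓞 K) := by
    have : x * y * -z = -(x * y * z) := by ring
    rw [this]
    exact hco.neg_left
  obtain ⟨w, hw⟩ : ∃ w, w = -z := ⟨_, rfl⟩
  rw [← hw] at h0 hco1
  have hw0 : w ≠ 0 := by rw [hw]; exact neg_ne_zero.mpr hz
  obtain ⟨g, a, b, c, T₁, T₂, T₃, hg, N₁, N₂, N₃⟩ := hDATA K τ hτ p hp.one_le x y w hx hy hw0 h0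
  have hg0 : g ≠ 0 := hg.ne'
  have h0' : x ^ p + w ^ p + y ^ p = 0 := by rw [← h0]; ring
  have h0'' : y ^ p + w ^ p + x ^ p = 0 := by rw [← h0]; ring
  have h0y : y ^ p + x ^ p + w ^ p = 0 := by rw [← h0]; ring
  have h0w : w ^ p + x ^ p + y ^ p = 0 := by rw [← h0]; ring
  have cy : IsCoprime (y * x * w) (p : 𝓞 K) := by
    have : y * x * w = x * y * w := by ring
    rwa [this]
  have cw : IsCoprime (w * x * y) (p : 𝓞 K) := by
    have : w * x * y = x * y * w := by ring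
    rwa [this]
  have T1' : y * τ x + x * τ y = (g : 𝓞 K) * (T₁ : 𝓞 K) := by rw [add_comm]; exact N₁.hT
  have T2' : w * τ x + x * τ w = (g : 𝓞 K) * (T₂ : 𝓞 K) := by rw [add_comm]; exact N₂.hT
  have T3' : w * τ y + y * τ w = (g : 𝓞 K) * (T₃ : 𝓞 K) := by rw [add_comm]; exact N₃.hT
  obtain ⟨pa, f₁⟩ := hMODP K τ hτ p hp x y w h0 hco1 g a b c T₁ T₂ hg0 N₁.hA N₁.hT N₂.hT
  obtain ⟨pb, f₂⟩ := hMODP K τ hτ p hp y x w h0y cy g b a c T₁ T₃ hg0 N₃.hA T1' N₃.hT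
  obtain ⟨pc, f₃⟩ := hMODP K τ hτ p hp w x y h0w cw g c a b T₂ T₃ hg0 N₃.hB T2' T3'
  have e₁ := hPAR K τ hτ p hp h5 x y w h0 g a b c T₁ hg0 N₁ N₂.hB
  have e₂ := hPAR K τ hτ p hp h5 x w y h0' g a c b T₂ hg0 N₂ N₁.hB
  have e₃ := hPAR K τ hτ p hp h5 y w x h0'' g b c a T₃ hg0 N₃ N₁.hA
  obtain ⟨r₁, g₁⟩ := hDISC K τ hτ d hd s hs hirr x y g a T₁ b hg0 N₁
  have cw1 : IsCoprime w (p : 𝓞 K) := cw.of_isCoprime_of_dvd_left ⟨x * y, by ring⟩
  have cy1 : IsCoprime y (p : 𝓞 K) := cw.of_isCoprime_of_dvd_left ⟨x * w, by ring⟩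
  have cx1 : IsCoprime x (p : 𝓞 K) := cw.of_isCoprime_of_dvd_left ⟨w * y, by ring⟩
  have i₁ := hPOW K hK τ hτ p h5 x y w hx hy h0 cw1 g a T₁ b hg0 N₁
  have i₂ := hPOW K hK τ hτ p h5 x w y hx hw0 h0' cy1 g a T₂ c hg0 N₂
  have i₃ := hPOW K hK τ hτ p h5 y w x hy hw0 h0'' cx1 g b T₃ c hg0 N₃
  have h2' : ∀ n : ℤ, (p : ℤ) ∣ 2 * n → (p : ℤ) ∣ n := fun n h =>
    Fin_.dvd_of_mul (m := 2) (by norm_num) (by omega) h (by push_cast; ring)
  have n₁ : ¬ (p : ℤ) ∣ a + T₁ + b := by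
    intro hcon
    apply pc
    apply h2'
    have h3 : 2 * c = 2 * (a + T₁ + b) - (2 * a + T₁ + T₂) - (2 * b + T₁ + T₃) +
      (2 * c + T₂ + T₃) := by ring
    rw [h3]
    exact dvd_add (dvd_sub (dvd_sub (Dvd.dvd.mul_left hcon 2) f₁) f₂) f₃
  have n₂ : ¬ (p : ℤ) ∣ a + T₂ + c := by
    intro hcon
    apply pb
    apply h2'
    have h3 : 2 * b = 2 * (a + T₂ + c) - (2 * a + T₁ + T₂) - (2 * c + T₂ + T₃) +
      (2 * b + T₁ + T₃) := by ring
    rw [h3]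
    exact dvd_add (dvd_sub (dvd_sub (Dvd.dvd.mul_left hcon 2) f₁) f₃) f₂
  have n₃ : ¬ (p : ℤ) ∣ b + T₃ + c := by
    intro hcon
    apply pa
    apply h2'
    have h3 : 2 * a = 2 * (b + T₃ + c) - (2 * b + T₁ + T₃) - (2 * c + T₂ + T₃) +
      (2 * a + T₁ + T₂) := by ring
    rw [h3]
    exact dvd_add (dvd_sub (dvd_sub (Dvd.dvd.mul_left hcon 2) f₂) f₃) f₁
  -- a prime above `p`
  obtain ⟨P, hPm, hpP⟩ := exists_max_ideal_of_mem_nonunits hpK
  have hP : P.IsPrime := hPm.isPrime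
  have nP : ∀ u : 𝓞 K, IsCoprime u (p : 𝓞 K) → u ∉ P := by
    rintro u ⟨r, t, hrt⟩ hu
    apply hP.ne_top
    rw [Ideal.eq_top_iff_one, ← hrt]
    exact P.add_mem (P.mul_mem_left _ hu) (P.mul_mem_left _ hpP)
  have nP' : ∀ u : 𝓞 K, IsCoprime u (p : 𝓞 K) → τ u ∉ P := by
    intro u hu
    have h3 := hu.map (τ : 𝓞 K →+* 𝓞 K)
    rw [map_natCast] at h3
    exact nP _ h3
  have m₁ := mirim hPOW hSFQ hMIR hK hτ h5 hW hP hpP hx hy h0 (nP _ cx1) (nP' _ cx1) (nP _ cw1)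
    (nP' _ cw1) hg0 N₁
  have m₂ := mirim hPOW hSFQ hMIR hK hτ h5 hW hP hpP hx hw0 h0' (nP _ cx1) (nP' _ cx1)
    (nP _ cy1) (nP' _ cy1) hg0 N₂
  obtain ⟨q1, q2, ⟨oa, ob, oc, oT⟩, q3, q4⟩ := Final_.arith h7 e₁ (by omega) (by omega) pa pb pc
    f₁ f₂ f₃ m₁ m₂ (Fin_.rel_of_rec hREC h7 hW N₁.prim n₁ i₁)
    (Fin_.rel_of_rec hREC h7 hW N₂.prim n₂ i₂) (Fin_.rel_of_rec hREC h7 hW N₃.prim n₃ i₃) g₁
  refine ⟨q1, q2, ?_⟩
  intro Q hQ
  have hL : Lc K Q (x : K) (y : K) (w : K) := by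
    rcases hQ with hQ | hQ
    · exact Lc_of Nat.prime_two (by exact_mod_cast hQ) hg0 N₁ N₃ (by exact_mod_cast oa)
        (by exact_mod_cast ob) (by exact_mod_cast oc) (by push_cast; omega)
        (by push_cast; omega)
    · exact Lc_of hp hQ hg0 N₁ N₃ pa pb pc q3 q4
  obtain ⟨l1, l2, l3⟩ := hL
  refine ⟨l1, ?_, l3⟩
  rw [l2, hw]
  have : ((-z : 𝓞 K) : K) = -(z : K) := by simp
  rw [this, Valuation.map_neg]

/-- The criterion for integral solutions that are coprime at the primes above `p`. -/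
def T_FCP : Prop := ∀ (K : Type) [Field K] [NumberField K], Module.finrank ℚ K = 2 →
  ∀ d : ℤ, Squarefree d → d ≠ 1 → ∀ s : K, s ^ 2 = (d : K) → ∀ (p : ℕ) [Fact p.Prime],
  7 ≤ p → ¬ p ^ 2 ∣ 2 ^ (p - 1) - 1 → ∀ x y z : 𝓞 K, x ^ p + y ^ p = z ^ p →
  (∀ Q : Ideal (𝓞 K), Q.IsPrime → (p : 𝓞 K) ∈ Q → x ∈ Q → y ∉ Q) →
  ∀ P : Ideal (𝓞 K), P.IsPrime → (p : 𝓞 K) ∈ P → x * y * z ∉ P →
  d % 8 = 5 ∧ legendreSym p d = legendreSym p (-3) ∧
    ∀ Q : HeightOneSpectrum (𝓞 K), ((2 : 𝓞 K) ∈ Q.asIdeal ∨ (p : 𝓞 K) ∈ Q.asIdeal) →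
      Lc K Q (x : K) (y : K) (z : K)

/-- residues of a norm form at a prime at which only `τ v` vanishes -/
theorem locp' {K : Type} [Field K] [NumberField K] {τ : 𝓞 K ≃+* 𝓞 K} {p : ℕ} (hp : p.Prime)
    {P : Ideal (𝓞 K)} (hP : P.IsPrime) (hpP : (p : 𝓞 K) ∈ P) {u v : 𝓞 K} {g A T B : ℤ}
    (hN : NF K τ u v g A T B) (hu : u ∉ P) (hv : v ∉ P) (hτu : τ u ∉ P) (hτv : τ v ∈ P)
    (hm : (p : ℤ) ∣ T * (A - B)) : False := by
  have key : ∀ n : ℤ, (g : 𝓞 K) * (n : 𝓞 K) ∉ P → ¬ (p : ℤ) ∣ n := by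
    intro n h1 h2
    exact h1 (P.mul_mem_left _ ((LOCP_.int_mem hp hP hpP).mpr h2))
  have hA : ¬ (p : ℤ) ∣ A := by
    apply key
    rw [← hN.hA]
    intro h
    rcases hP.mem_or_mem h with h | h
    · exact hu h
    · exact hτu h
  have hg : (g : 𝓞 K) ∉ P := by
    intro h
    have h1 : u * τ u ∈ P := by rw [hN.hA]; exact P.mul_mem_right _ h
    rcases hP.mem_or_mem h1 with h | h
    · exact hu h
    · exact hτu h
  have hB : (p : ℤ) ∣ B := by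
    have h1 : (g : 𝓞 K) * (B : 𝓞 K) ∈ P := by
      rw [← hN.hB]
      exact P.mul_mem_left _ hτv
    rcases hP.mem_or_mem h1 with h | h
    · exact absurd h hg
    · exact (LOCP_.int_mem hp hP hpP).mp h
  have hT : ¬ (p : ℤ) ∣ T := by
    apply key
    rw [← hN.hT]
    intro h
    have h1 : v * τ u ∈ P := by
      have h2 : v * τ u = (u * τ v + v * τ u) - u * τ v := by ring
      rw [h2]
      exact P.sub_mem h (P.mul_mem_left _ hτv)
    rcases hP.mem_or_mem h1 with h | h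
    · exact hv h
    · exact hτu h
  rcases (Nat.prime_iff_prime_int.mp hp).dvd_or_dvd hm with h | h
  · exact hT h
  · apply hA
    have h1 := dvd_add h hB
    rwa [sub_add_cancel] at h1

theorem p_FCP (hCONJ : T_CONJ) (hDATA : T_DATA) (hNFI : T_NFI) (hPAR : T_PAR) (hMODP : T_MODP)
    (hDISC : T_DISC) (hPOW : T_POW) (hREC : T_REC) (hSFQ : T_SFQ) (hMIR : T_MIR) : T_FCP := by
  intro K _ _ hK d hd hd1 s hs p _ h7 hW x y z h hI P hP hpP hxyz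
  have hp : p.Prime := Fact.out
  have h5 : 5 ≤ p := by omega
  have hodd : Odd p := hp.odd_of_ne_two (by omega)
  obtain ⟨τ, hτ⟩ := hCONJ K hK
  have hxP : x ∉ P := fun h1 => hxyz (P.mul_mem_right _ (P.mul_mem_right _ h1))
  have hyP : y ∉ P := fun h1 => hxyz (P.mul_mem_right _ (P.mul_mem_left _ h1))
  have hzP : z ∉ P := fun h1 => hxyz (P.mul_mem_left _ h1)
  have hx : x ≠ 0 := fun h1 => hxP (by rw [h1]; exact P.zero_mem)
  have hy : y ≠ 0 := fun h1 => hyP (by rw [h1]; exact P.zero_mem)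
  have hz : z ≠ 0 := fun h1 => hzP (by rw [h1]; exact P.zero_mem)
  have hQ : (P.comap (τ : 𝓞 K →+* 𝓞 K)).IsPrime := Ideal.IsPrime.comap _
  have hpQ : (p : 𝓞 K) ∈ P.comap (τ : 𝓞 K →+* 𝓞 K) := by
    rw [Ideal.mem_comap, map_natCast]
    exact hpP
  have h' : (τ x) ^ p + (τ y) ^ p = (τ z) ^ p := by
    rw [← map_pow, ← map_pow, ← map_pow, ← map_add, h]
  have hIQ : τ x ∈ P → τ y ∉ P := fun h1 h2 => hI _ hQ hpQ h1 h2
  have hxz : τ x ∈ P → τ z ∉ P := by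
    intro h1 h2
    apply hIQ h1
    apply hP.mem_of_pow_mem p
    have h3 : (τ y) ^ p = (τ z) ^ p - (τ x) ^ p := by rw [← h']; ring
    rw [h3]
    exact P.sub_mem (P.pow_mem_of_mem h2 _ (by omega)) (P.pow_mem_of_mem h1 _ (by omega))
  have hyz : τ y ∈ P → τ z ∉ P := by
    intro h1 h2
    refine hIQ ?_ h1
    apply hP.mem_of_pow_mem p
    have h3 : (τ x) ^ p = (τ z) ^ p - (τ y) ^ p := by rw [← h']; ring
    rw [h3]
    exact P.sub_mem (P.pow_mem_of_mem h2 _ (by omega)) (P.pow_mem_of_mem h1 _ (by omega))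
  obtain ⟨w, hw⟩ : ∃ w, w = -z := ⟨_, rfl⟩
  have h0 : x ^ p + y ^ p + w ^ p = 0 := by
    rw [hw, hodd.neg_pow, h]
    ring
  have hwP : w ∉ P := by
    rw [hw]
    exact fun h1 => hzP (by simpa using P.neg_mem h1)
  have hw0 : w ≠ 0 := by rw [hw]; exact neg_ne_zero.mpr hz
  have hτw : τ w = -τ z := by rw [hw, map_neg]
  have hwz : τ w ∈ P ↔ τ z ∈ P := by
    rw [hτw]
    exact P.neg_mem_iff
  obtain ⟨g, a, b, c, T₁, T₂, T₃, hg, N₁, N₂, N₃⟩ := hDATA K τ hτ p hp.one_le x y w hx hy hw0 h0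
  have hg0 : g ≠ 0 := hg.ne'
  have psw : ∀ A t B : ℤ, Prim A t B → Prim B t A := fun A t B hP q hq h1 h2 h3 =>
    hP q hq h3 h2 h1
  have L₁ : NF K τ y x g b T₁ a := hNFI K τ hτ _ _ _ _ _ _ hg0 N₁.hB
    (by rw [add_comm]; exact N₁.hT) N₁.hA (psw _ _ _ N₁.prim)
  have h0' : x ^ p + w ^ p + y ^ p = 0 := by rw [← h0]; ring
  have h0y : y ^ p + x ^ p + w ^ p = 0 := by rw [← h0]; ring
  by_cases tx : τ x ∈ P
  · exfalso
    refine locp' hp hP hpP L₁ hyP hxP (hIQ tx) tx ?_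
    exact mirim hPOW hSFQ hMIR hK hτ h5 hW hP hpP hy hx h0y hyP (hIQ tx) hwP
      (fun h1 => hxz tx (hwz.mp h1)) hg0 L₁
  by_cases ty : τ y ∈ P
  · exfalso
    refine locp' hp hP hpP N₁ hxP hyP tx ty ?_
    exact mirim hPOW hSFQ hMIR hK hτ h5 hW hP hpP hx hy h0 hxP tx hwP
      (fun h1 => hyz ty (hwz.mp h1)) hg0 N₁
  by_cases tw : τ w ∈ P
  · exfalso
    refine locp' hp hP hpP N₂ hxP hwP tx tw ?_
    exact mirim hPOW hSFQ hMIR hK hτ h5 hW hP hpP hx hw0 h0' hxP tx hyP ty hg0 N₂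
  refine core hDATA hPAR hMODP hDISC hPOW hREC hSFQ hMIR K hK d hd hd1 s hs hτ p h7 hW x y z ?_ h
  exact EP_.coprime_of hτ hP hpP hxyz (by
    rw [map_mul, map_mul]
    intro h1
    rcases hP.mem_or_mem h1 with h1 | h1
    · rcases hP.mem_or_mem h1 with h1 | h1
      · exact tx h1
      · exact ty h1
    · exact tw (hwz.mpr h1))

/-- The criterion over `K`. -/
def T_FCK : Prop := ∀ (K : Type) [Field K] [NumberField K], Module.finrank ℚ K = 2 →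
  ∀ d : ℤ, Squarefree d → d ≠ 1 → ∀ s : K, s ^ 2 = (d : K) → ∀ (p : ℕ) [Fact p.Prime],
  7 ≤ p → ¬ p ^ 2 ∣ 2 ^ (p - 1) - 1 → ∀ x y z : K, x * y * z ≠ 0 → x ^ p + y ^ p = z ^ p →
  ∀ P : HeightOneSpectrum (𝓞 K), (p : 𝓞 K) ∈ P.asIdeal →
  P.valuation K x = P.valuation K y → P.valuation K y = P.valuation K z →
  d % 8 = 5 ∧ legendreSym p d = legendreSym p (-3) ∧
    ∀ Q : HeightOneSpectrum (𝓞 K), ((2 : 𝓞 K) ∈ Q.asIdeal ∨ (p : 𝓞 K) ∈ Q.asIdeal) →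
      Lc K Q x y z

theorem p_FCK (hFCP : T_FCP) : T_FCK := by
  classical
  intro K _ _ hK d hd hd1 s hs p _ h7 hW x y z hxyz h P hP hval1 hval2
  have hp : p.Prime := Fact.out
  have hp0 : p ≠ 0 := hp.ne_zero
  obtain ⟨b, hb⟩ := IsLocalization.exist_integer_multiples_of_finset
    (nonZeroDivisors (𝓞 K)) ({x, y, z} : Finset K)
  have hb0 : (b : 𝓞 K) ≠ 0 := nonZeroDivisors.ne_zero b.2
  obtain ⟨X, hX⟩ := hb x (by simp)
  obtain ⟨Y, hY⟩ := hb y (by simp)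
  obtain ⟨Z, hZ⟩ := hb z (by simp)
  rw [Algebra.smul_def] at hX hY hZ
  have hbK : algebraMap (𝓞 K) K b ≠ 0 := by
    rw [Ne, FaithfulSMul.algebraMap_eq_zero_iff]
    exact hb0
  have hz : z ≠ 0 := right_ne_zero_of_mul hxyz
  have hxy : x * y ≠ 0 := left_ne_zero_of_mul hxyz
  have hx : x ≠ 0 := left_ne_zero_of_mul hxy
  have hX0 : X ≠ 0 := by
    rintro rfl
    rw [map_zero] at hX
    exact mul_ne_zero hbK hx hX.symm
  have hXYZ : X ^ p + Y ^ p = Z ^ p := by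
    apply FaithfulSMul.algebraMap_injective (𝓞 K) K
    rw [map_add, map_pow, map_pow, map_pow, hX, hY, hZ, mul_pow, mul_pow, mul_pow, ← h]
    ring
  have hq0 : (p : 𝓞 K) ≠ 0 := by exact_mod_cast hp.ne_zero
  have hqu : ¬ IsUnit (p : 𝓞 K) := fun hu => P.isPrime.ne_top (Ideal.eq_top_of_isUnit_mem _ hP hu)
  obtain ⟨δ, c, hδ, hall, hcQ, hcop⟩ := EPK_.scale hq0 hqu (y := Y) hX0
  obtain ⟨X', hX'⟩ := hall X (Ideal.subset_span (by simp))
  obtain ⟨Y', hY'⟩ := hall Y (Ideal.subset_span (by simp))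
  obtain ⟨Z', hZ'⟩ := hall Z (EPK_.mem_of_pow hp0 (by
    rw [← hXYZ]
    exact Ideal.add_mem _ (Ideal.pow_mem_pow (Ideal.subset_span (by simp)) _)
      (Ideal.pow_mem_pow (Ideal.subset_span (by simp)) _)))
  have h' : X' ^ p + Y' ^ p = Z' ^ p := by
    apply mul_left_cancel₀ (pow_ne_zero p hδ)
    rw [mul_add, ← mul_pow, ← mul_pow, ← mul_pow, ← hX', ← hY', ← hZ', mul_pow, mul_pow,
      mul_pow, ← hXYZ]
    ring
  have hcop' := hcop X' Y' hX' hY'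
  have hc0 : c ≠ 0 := fun h1 => hcQ P.asIdeal P.isPrime hP (by rw [h1]; exact Ideal.zero_mem _)
  have hδK : algebraMap (𝓞 K) K δ ≠ 0 := by
    rw [Ne, FaithfulSMul.algebraMap_eq_zero_iff]
    exact hδ
  have hcK : algebraMap (𝓞 K) K c ≠ 0 := by
    rw [Ne, FaithfulSMul.algebraMap_eq_zero_iff]
    exact hc0
  obtain ⟨l, hl⟩ : ∃ l : K, l = algebraMap (𝓞 K) K c * algebraMap (𝓞 K) K b /
    algebraMap (𝓞 K) K δ := ⟨_, rfl⟩
  have hl0 : l ≠ 0 := by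
    rw [hl]
    exact div_ne_zero (mul_ne_zero hcK hbK) hδK
  have tr : ∀ (v : K) (V V' : 𝓞 K), algebraMap (𝓞 K) K V = algebraMap (𝓞 K) K b * v →
      c * V = δ * V' → (V' : K) = l * v := by
    intro v V V' h1 h2
    have h3 : algebraMap (𝓞 K) K c * algebraMap (𝓞 K) K V =
        algebraMap (𝓞 K) K δ * algebraMap (𝓞 K) K V' := by
      rw [← map_mul, ← map_mul, h2]
    rw [h1] at h3
    rw [hl]
    change algebraMap (𝓞 K) K V' = _
    field_simp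
    linear_combination -h3
  have t1 := tr x X X' hX hX'
  have t2 := tr y Y Y' hY hY'
  have t3 := tr z Z Z' hZ hZ'
  have vl : P.valuation K l ≠ 0 := by rwa [Valuation.ne_zero_iff]
  have e1 : P.valuation K (X' : K) = P.valuation K (Y' : K) := by
    rw [t1, t2, map_mul, map_mul, hval1]
  have e2 : P.valuation K (Y' : K) = P.valuation K (Z' : K) := by
    rw [t2, t3, map_mul, map_mul, hval2]
  have hmem : ∀ W : 𝓞 K, P.valuation K (W : K) < 1 ↔ W ∈ P.asIdeal :=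
    fun W => HeightOneSpectrum.valuation_lt_one_iff_mem P W
  have i1 : X' ∈ P.asIdeal ↔ Y' ∈ P.asIdeal := by rw [← hmem, ← hmem, e1]
  have i2 : Y' ∈ P.asIdeal ↔ Z' ∈ P.asIdeal := by rw [← hmem, ← hmem, e2]
  have hnot : X' * Y' * Z' ∉ P.asIdeal := by
    intro key
    have hXP : X' ∈ P.asIdeal := by
      rcases P.isPrime.mem_or_mem key with h1 | h1
      · rcases P.isPrime.mem_or_mem h1 with h2 | h2
        · exact h2
        · exact i1.mpr h2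
      · exact i1.mpr (i2.mpr h1)
    exact hcop' P.asIdeal P.isPrime hP hXP (i1.mp hXP)
  obtain ⟨q1, q2, q3⟩ := hFCP K hK d hd hd1 s hs p h7 hW X' Y' Z' h' hcop' P.asIdeal P.isPrime hP
    hnot
  exact ⟨q1, q2, fun Q hQ => Lc_scale hl0 t1 t2 t3 (q3 Q hQ)⟩

end Pool.Agent.FCM
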