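import Pool.Agent.FCM.Targets

/-!
# FCM, KTL: an identity of harmonic sums modulo `p`
-/

set_option autoImplicit false

open NumberField Polynomial

namespace Pool.Agent.FCM

open Pool.Agent.FCW

namespace KTL_

variable {p : ℕ} [Fact p.Prime]

lemma sum_half {h : ℕ} (hp : p = 2 * h + 1) (f : ZMod p → ZMod p) :
    ∑ u ∈ half p, f u = ∑ r ∈ Finset.range h, f ((r + 1 : ℕ) : ZMod p) := by
  have hpp : p.Prime := Fact.out
  have hpos : 0 < p := hpp.pos
  have : NeZero p := ⟨hpos.ne'⟩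
  refine Finset.sum_bij (fun u _ => (u : ZMod p).val - 1) ?_ ?_ ?_ ?_
  · intro u hu
    have h1 : 2 * (u : ZMod p).val < p := (Finset.mem_filter.1 hu).2
    have h2 : (u : ZMod p).val ≠ 0 := by
      rw [Ne, ZMod.val_eq_zero]
      exact u.ne_zero
    rw [Finset.mem_range]
    omega
  · intro u hu v hv huv
    have h2 : (u : ZMod p).val ≠ 0 := by
      rw [Ne, ZMod.val_eq_zero]
      exact u.ne_zero
    have h3 : (v : ZMod p).val ≠ 0 := by
      rw [Ne, ZMod.val_eq_zero]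
      exact v.ne_zero
    have h4 : (u : ZMod p).val = (v : ZMod p).val := by omega
    exact Units.ext (ZMod.val_injective p h4)
  · intro r hr
    rw [Finset.mem_range] at hr
    have h1 : ((r + 1 : ℕ) : ZMod p).val = r + 1 := ZMod.val_natCast_of_lt (by omega)
    have h2 : ((r + 1 : ℕ) : ZMod p) ≠ 0 := by
      rw [Ne, ← ZMod.val_eq_zero, h1]
      omega
    refine ⟨Units.mk0 _ h2, ?_, ?_⟩
    · unfold half
      rw [Finset.mem_filter]
      refine ⟨Finset.mem_univ _, ?_⟩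
      rw [Units.val_mk0, h1]
      omega
    · simp only [Units.val_mk0]
      rw [h1]
      omega
  · intro u hu
    have h2 : (u : ZMod p).val ≠ 0 := by
      rw [Ne, ZMod.val_eq_zero]
      exact u.ne_zero
    have h3 : (u : ZMod p).val - 1 + 1 = (u : ZMod p).val := by omega
    rw [h3, ZMod.natCast_zmod_val]

lemma sum_all (f : ZMod p → ZMod p) : ∑ x : ZMod p, f x = ∑ j ∈ Finset.range p, f (j : ZMod p) := by
  have hpp : p.Prime := Fact.out
  have : NeZero p := ⟨hpp.pos.ne'⟩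
  refine Finset.sum_bij (fun x _ => x.val) ?_ ?_ ?_ ?_
  · intro x _
    exact Finset.mem_range.2 (ZMod.val_lt x)
  · intro x _ y _ hxy
    exact ZMod.val_injective p hxy
  · intro j hj
    exact ⟨(j : ZMod p), Finset.mem_univ _, ZMod.val_natCast_of_lt (Finset.mem_range.1 hj)⟩
  · intro x _
    rw [ZMod.natCast_zmod_val]

lemma range_pair (g : ℕ → ZMod p) (h : ℕ) :
    ∑ r ∈ Finset.range h, (g (2 * r + 1) + g (2 * r + 2)) =
      ∑ j ∈ Finset.range (2 * h), g (j + 1) := by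
  induction h with
  | zero => simp
  | succ h ih =>
    rw [Finset.sum_range_succ, ih, show 2 * (h + 1) = 2 * h + 1 + 1 by ring,
      Finset.sum_range_succ, Finset.sum_range_succ, add_assoc]

lemma pair_sum {h : ℕ} (hp : p = 2 * h + 1) (f : ZMod p → ZMod p) :
    ∑ u ∈ half p, (f (2 * u - 1) + f (2 * u)) = ∑ x : ZMod p, f x - f 0 := by
  rw [sum_half hp (fun x => f (2 * x - 1) + f (2 * x)), sum_all]
  have h1 := range_pair (fun j => f (j : ZMod p)) h
  have h2 : ∑ j ∈ Finset.range p, f (j : ZMod p) =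
      ∑ j ∈ Finset.range (2 * h), f ((j + 1 : ℕ) : ZMod p) + f 0 := by
    rw [show Finset.range p = Finset.range (2 * h + 1) by rw [← hp], Finset.sum_range_succ']
    simp
  rw [h2, ← h1, add_sub_cancel_right]
  refine Finset.sum_congr rfl fun r _ => ?_
  push_cast
  congr 2 <;> ring

lemma sum_inv (hp : 3 ≤ p) (a : ZMod p) : ∑ x : ZMod p, (x + a)⁻¹ = 0 := by
  have hpp : p.Prime := Fact.out
  have h0 : ∑ x : ZMod p, (x + a)⁻¹ = ∑ x : ZMod p, x⁻¹ :=
    Equiv.sum_comp (Equiv.addRight a) fun x => x⁻¹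
  rw [h0]
  have h1 : ∑ x : ZMod p, (-x)⁻¹ = ∑ x : ZMod p, x⁻¹ :=
    Equiv.sum_comp (Equiv.neg (ZMod p)) fun x => x⁻¹
  simp only [inv_neg, Finset.sum_neg_distrib] at h1
  have h2 : (2 : ZMod p) ≠ 0 := by
    intro h
    have h3 : ((2 : ℕ) : ZMod p) = 0 := by exact_mod_cast h
    rw [ZMod.natCast_eq_zero_iff] at h3
    have := Nat.le_of_dvd (by norm_num) h3
    omega
  have h3 : 2 * ∑ x : ZMod p, x⁻¹ = 0 := by linear_combination -h1
  exact (mul_eq_zero.1 h3).resolve_left h2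

/-- the left side -/
noncomputable def K (p : ℕ) [Fact p.Prime] (a : ZMod p) : ZMod p :=
  2⁻¹ * ∑ u ∈ half p, ((2 * (u : ZMod p) - a)⁻¹ + (2 * (u : ZMod p) + a)⁻¹)

lemma K_succ (hp5 : 5 ≤ p) (a : ZMod p) : K p (a + 1) + K p a = 2⁻¹ * (a⁻¹ - (a + 1)⁻¹) := by
  have hpp : p.Prime := Fact.out
  obtain ⟨h, hh⟩ : Odd p := hpp.odd_of_ne_two (by omega)
  have h1 := pair_sum hh fun x => (x + -a)⁻¹
  have h2 := pair_sum hh fun x => (x + (a + 1))⁻¹
  rw [sum_inv (by omega)] at h1 h2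
  rw [Finset.sum_add_distrib] at h1 h2
  unfold K
  rw [Finset.sum_add_distrib, Finset.sum_add_distrib]
  have e1 : ∑ u ∈ half p, (2 * (u : ZMod p) - (a + 1))⁻¹ =
      ∑ u ∈ half p, (2 * (u : ZMod p) - 1 + -a)⁻¹ :=
    Finset.sum_congr rfl fun u _ => by congr 1; ring
  have e2 : ∑ u ∈ half p, (2 * (u : ZMod p) - a)⁻¹ =
      ∑ u ∈ half p, (2 * (u : ZMod p) + -a)⁻¹ :=
    Finset.sum_congr rfl fun u _ => by congr 1; ring
  have e3 : ∑ u ∈ half p, (2 * (u : ZMod p) + a)⁻¹ =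
      ∑ u ∈ half p, (2 * (u : ZMod p) - 1 + (a + 1))⁻¹ :=
    Finset.sum_congr rfl fun u _ => by congr 1; ring
  rw [e1, e2, e3]
  rw [zero_add, inv_neg, sub_neg_eq_add, zero_add] at h1
  rw [zero_add, zero_sub] at h2
  linear_combination 2⁻¹ * h1 + 2⁻¹ * h2

lemma two_ne (hp : 5 ≤ p) : (2 : ZMod p) ≠ 0 := by
  intro h
  have h3 : ((2 : ℕ) : ZMod p) = 0 := by exact_mod_cast h
  rw [ZMod.natCast_eq_zero_iff] at h3
  have := Nat.le_of_dvd (by norm_num) h3
  omega

lemma K_zero (hp : 5 ≤ p) : K p 0 = Hs p / 2 := by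
  unfold K Hs
  rw [div_eq_mul_inv, mul_comm]
  congr 1
  refine Finset.sum_congr rfl fun u _ => ?_
  have hu := u.ne_zero
  have h2 := two_ne hp
  rw [sub_zero, add_zero, Units.val_inv_eq_inv_val]
  field_simp
  norm_num

lemma term (hp : 5 ≤ p) (u : (ZMod p)ˣ) (a : ZMod p) :
    ((u⁻¹ : (ZMod p)ˣ) : ZMod p) * cw p (a * ((u⁻¹ : (ZMod p)ˣ) : ZMod p)) =
      2⁻¹ * ((2 * (u : ZMod p) - a)⁻¹ + (2 * (u : ZMod p) + a)⁻¹) := by
  have hu := u.ne_zero
  have h2 := two_ne hp
  have h4 : (4 : ZMod p) ≠ 0 := by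
    rw [show (4 : ZMod p) = 2 * 2 by norm_num]
    exact mul_ne_zero h2 h2
  have h8 : (8 : ZMod p) ≠ 0 := by
    rw [show (8 : ZMod p) = 2 * 4 by norm_num]
    exact mul_ne_zero h2 h4
  rw [Units.val_inv_eq_inv_val]
  unfold cw
  split_ifs with h
  · have h5 : (a - 2 * u) * (a + 2 * u) = 0 := by
      have h6 : a ^ 2 = 4 * (u : ZMod p) ^ 2 := by
        rw [mul_pow, inv_pow] at h
        field_simp at h
        linear_combination h
      linear_combination h6
    rcases mul_eq_zero.1 h5 with h6 | h6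
    · have h7 : a = 2 * u := by linear_combination h6
      rw [h7, sub_self, inv_zero, zero_add, show 2 * (u : ZMod p) + 2 * u = 4 * u by ring,
        mul_inv, one_div, show (8 : ZMod p) = 2 * 4 by norm_num, mul_inv]
      ring
    · have h7 : a = -(2 * u) := by linear_combination h6
      rw [h7, add_neg_cancel, inv_zero, add_zero, sub_neg_eq_add,
        show 2 * (u : ZMod p) + 2 * u = 4 * u by ring,
        mul_inv, one_div, show (8 : ZMod p) = 2 * 4 by norm_num, mul_inv]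
      ring
  · have h5 : (4 : ZMod p) - (a * (u : ZMod p)⁻¹) ^ 2 ≠ 0 := fun h6 => h (by linear_combination -h6)
    have h6 : 4 * (u : ZMod p) ^ 2 - a ^ 2 ≠ 0 := by
      intro h7
      refine h5 ?_
      rw [mul_pow, inv_pow]
      field_simp
      linear_combination h7
    have h7 : 2 * (u : ZMod p) - a ≠ 0 := by
      intro h8'
      exact h6 (by linear_combination (2 * (u : ZMod p) + a) * h8')
    have h8' : 2 * (u : ZMod p) + a ≠ 0 := by
      intro h9
      exact h6 (by linear_combination (2 * (u : ZMod p) - a) * h9)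
    have e1 : (4 : ZMod p) - (a * (u : ZMod p)⁻¹) ^ 2 =
        (2 * (u : ZMod p) - a) * (2 * (u : ZMod p) + a) / (u : ZMod p) ^ 2 := by
      field_simp
      ring
    rw [e1]
    obtain ⟨X, hX⟩ : ∃ X, X = 2 * (u : ZMod p) - a := ⟨_, rfl⟩
    obtain ⟨Y, hY⟩ : ∃ Y, Y = 2 * (u : ZMod p) + a := ⟨_, rfl⟩
    have hXY : X + Y = 4 * (u : ZMod p) := by rw [hX, hY]; ring
    rw [← hX] at h7 ⊢
    rw [← hY] at h8' ⊢
    have h22 : (2 : ZMod p) * 2⁻¹ = 1 := mul_inv_cancel₀ h2
    calc (u : ZMod p)⁻¹ * (2 / (X * Y / (u : ZMod p) ^ 2)) = 2 * (u : ZMod p) * (X⁻¹ * Y⁻¹) := by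
          field_simp
      _ = 2⁻¹ * ((X + Y) * (X⁻¹ * Y⁻¹)) := by
          rw [hXY]
          linear_combination (-2 * (u : ZMod p) * (X⁻¹ * Y⁻¹)) * h22
      _ = 2⁻¹ * (X⁻¹ + Y⁻¹) := by
          field_simp
          ring

end KTL_

/-- KTL: the identity of harmonic sums. -/
theorem p_KTL : T_KTL := by
  intro p _ hp m hm hmp
  rw [Finset.sum_congr rfl fun u _ => KTL_.term hp u (m : ZMod p), ← Finset.mul_sum]
  change KTL_.K p (m : ZMod p) = Kc p m
  induction m, hm using Nat.le_induction with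
  | base =>
    have h := KTL_.K_succ hp (0 : ZMod p)
    rw [KTL_.K_zero hp, zero_add, inv_zero, inv_one] at h
    unfold Kc
    rw [Nat.cast_one, Finset.Ico_self, Finset.sum_empty, pow_one]
    have h2 := KTL_.two_ne hp
    field_simp
    field_simp at h
    linear_combination h
  | succ m hm ih =>
    have h := KTL_.K_succ hp (m : ZMod p)
    have ih' := ih (by omega)
    have h2 := KTL_.two_ne hp
    have hm0 : (m : ZMod p) ≠ 0 := by
      intro h0
      rw [ZMod.natCast_eq_zero_iff] at h0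
      have := Nat.le_of_dvd (by omega) h0
      omega
    have hm1 : (m : ZMod p) + 1 ≠ 0 := by
      intro h0
      have h1 : ((m + 1 : ℕ) : ZMod p) = 0 := by push_cast; exact h0
      rw [ZMod.natCast_eq_zero_iff] at h1
      have := Nat.le_of_dvd (by omega) h1
      omega
    have h3 : Kc p (m + 1) + Kc p m = 2⁻¹ * ((m : ZMod p)⁻¹ - ((m : ZMod p) + 1)⁻¹) := by
      unfold Kc
      rw [Finset.sum_Ico_succ_top hm, pow_succ]
      have hs : ((-1 : ZMod p) ^ m) * (-1) ^ m = 1 := by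
        rw [← mul_pow]; norm_num
      have h22 : (2 : ZMod p) * 2⁻¹ = 1 := mul_inv_cancel₀ h2
      have e1 : 1 / (2 * ((m : ZMod p) + 1)) = 2⁻¹ * ((m : ZMod p) + 1)⁻¹ := by
        rw [one_div, mul_inv]
      push_cast
      rw [e1]
      linear_combination (m : ZMod p)⁻¹ * hs - (m : ZMod p)⁻¹ * h22
    push_cast at h ⊢
    rw [ih'] at h
    linear_combination h - h3

end Pool.Agent.FCM
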