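import Pool.Agent.FCM.Targets
import Pool.Agent.FCW.EIB

/-!
# The logarithmic derivative of the key equation modulo `p` (job FCM-LGD)
-/

open Polynomial

namespace Pool.Agent.FCM

open Pool.Agent.FCW

namespace LGD_

open EIB_

section gen

variable {k : Type} [Field k] (p : ℕ) [Fact p.Prime]

/-- the polynomial with coefficients `h` -/
noncomputable def Pl (h : ZMod p → k) : k[X] := ∑ n : ZMod p, C (h n) * X ^ n.val

/-- powers of `X` modulo `X ^ p - 1` -/
theorem pow_dvd_aux (n : ℕ) : (X ^ p - 1 : k[X]) ∣ X ^ n - X ^ (n % p) := by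
  have h1 : (X : k[X]) ^ n = X ^ (n % p) * (X ^ p) ^ (n / p) := by
    rw [← pow_mul, ← pow_add, Nat.mod_add_div]
  rw [h1]
  have h2 : (X ^ p - 1 : k[X]) ∣ (X ^ p) ^ (n / p) - 1 := by
    have := sub_dvd_pow_sub_pow (X ^ p : k[X]) 1 (n / p)
    rwa [one_pow] at this
  have h3 : (X : k[X]) ^ (n % p) * (X ^ p) ^ (n / p) - X ^ (n % p) =
      X ^ (n % p) * ((X ^ p) ^ (n / p) - 1) := by ring
  rw [h3]
  exact Dvd.dvd.mul_left h2 _

theorem val_add_dvd (c d : ZMod p) :
    (X ^ p - 1 : k[X]) ∣ X ^ c.val * X ^ d.val - X ^ (c + d).val := by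
  rw [← pow_add, ZMod.val_add]
  exact pow_dvd_aux p _

/-- the sum `∑ a(m) X ^ (c m)` -/
noncomputable def Lp (a : ZMod p → k) (c : ZMod p) : k[X] :=
  ∑ m : ZMod p, C (a m) * X ^ (c * m).val

theorem Lp_shift (a : ZMod p → k) (c d : ZMod p) :
    (X ^ p - 1 : k[X]) ∣ X ^ (c * d).val * Lp p a c - ∑ m : ZMod p, C (a (m - d)) * X ^ (c * m).val := by
  have h1 : ∑ m : ZMod p, C (a (m - d)) * (X : k[X]) ^ (c * m).val =
      ∑ m : ZMod p, C (a m) * X ^ (c * (m + d)).val := by
    rw [← Equiv.sum_comp (Equiv.addRight d)]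
    refine Finset.sum_congr rfl fun m _ => ?_
    rw [Equiv.coe_addRight, add_sub_cancel_right]
  rw [h1]
  unfold Lp
  rw [Finset.mul_sum, ← Finset.sum_sub_distrib]
  refine Finset.dvd_sum fun m _ => ?_
  have h2 : (X : k[X]) ^ (c * d).val * (C (a m) * X ^ (c * m).val) -
      C (a m) * X ^ (c * (m + d)).val =
      C (a m) * (X ^ (c * m).val * X ^ (c * d).val - X ^ (c * m + c * d).val) := by
    rw [mul_add c m d]
    ring
  rw [h2]
  exact Dvd.dvd.mul_left (val_add_dvd p _ _) _

theorem sq_dvd (c : ZMod p) :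
    (X ^ p - 1 : k[X]) ∣ X ^ (2 * c.val) - X ^ (c * 2).val := by
  have h := val_add_dvd (k := k) p c c
  rw [← pow_add, ← two_mul, ← mul_two] at h
  exact h

/-- the equation of `L_c` -/
theorem Lp_eq (A T B : k) (a : ZMod p → k)
    (ha : ∀ m : ZMod p, A * a m + T * a (m - 1) + B * a (m - 2) =
      (if m = 1 then T else 0) + (if m = 2 then 2 * B else 0)) (c : ZMod p) :
    (X ^ p - 1 : k[X]) ∣ (C T * X ^ c.val + 2 * C B * (X ^ c.val) ^ 2) -
      fx A T B c.val * Lp p a c := by
  have s1 := Lp_shift p a c 1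
  have s2 := Lp_shift p a c 2
  have s3 := sq_dvd (k := k) p c
  rw [mul_one] at s1
  have e0 : C A * Lp p a c + C T * (∑ m : ZMod p, C (a (m - 1)) * X ^ (c * m).val) +
      C B * (∑ m : ZMod p, C (a (m - 2)) * X ^ (c * m).val) =
      C T * X ^ c.val + 2 * C B * X ^ (c * 2).val := by
    unfold Lp
    rw [Finset.mul_sum, Finset.mul_sum, Finset.mul_sum, ← Finset.sum_add_distrib,
      ← Finset.sum_add_distrib]
    have h1 : ∀ m : ZMod p, C A * (C (a m) * X ^ (c * m).val) +
        C T * (C (a (m - 1)) * X ^ (c * m).val) + C B * (C (a (m - 2)) * X ^ (c * m).val) =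
        (if m = 1 then C T * X ^ (c * m).val else 0) +
          (if m = 2 then 2 * C B * (X : k[X]) ^ (c * m).val else 0) := by
      intro m
      have h2 : C A * (C (a m) * X ^ (c * m).val) +
        C T * (C (a (m - 1)) * X ^ (c * m).val) + C B * (C (a (m - 2)) * X ^ (c * m).val) =
        C (A * a m + T * a (m - 1) + B * a (m - 2)) * (X : k[X]) ^ (c * m).val := by
        rw [C_add, C_add, C_mul, C_mul, C_mul]
        ring
      rw [h2, ha m, C_add, add_mul]
      congr 1
      · split_ifs with h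
        · rfl
        · rw [C_0, zero_mul]
      · split_ifs with h
        · rw [C_mul, C_ofNat]
        · rw [C_0, zero_mul]
    rw [Finset.sum_congr rfl fun m _ => h1 m, Finset.sum_add_distrib, Finset.sum_ite_eq' , Finset.sum_ite_eq',
      if_pos (Finset.mem_univ _), if_pos (Finset.mem_univ _), mul_one]
  have e1 : (C T * X ^ c.val + 2 * C B * (X ^ c.val) ^ 2) - fx A T B c.val * Lp p a c =
      - (C T * (X ^ c.val * Lp p a c - ∑ m : ZMod p, C (a (m - 1)) * X ^ (c * m).val)) -
      C B * (X ^ (c * 2).val * Lp p a c - ∑ m : ZMod p, C (a (m - 2)) * X ^ (c * m).val) +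
      (2 * C B - C B * Lp p a c) * (X ^ (2 * c.val) - X ^ (c * 2).val) := by
    have h3 : (X : k[X]) ^ (2 * c.val) = (X ^ c.val) ^ 2 := by rw [← pow_mul, mul_comm]
    unfold fx
    rw [h3]
    linear_combination -e0
  rw [e1]
  refine dvd_add (dvd_sub ?_ ?_) ?_
  · exact (dvd_neg).2 (Dvd.dvd.mul_left s1 _)
  · exact Dvd.dvd.mul_left s2 _
  · exact Dvd.dvd.mul_left s3 _

/-- logarithmic derivative of a product -/
theorem logd {ι : Type*} [DecidableEq ι] (Q : k[X]) (s : Finset ι) (F M : ι → k[X])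
    (h : ∀ u ∈ s, Q ∣ th (F u) - F u * M u) :
    Q ∣ th (∏ u ∈ s, F u) - (∏ u ∈ s, F u) * ∑ u ∈ s, M u := by
  induction s using Finset.induction_on with
  | empty => simp [th]
  | insert u s hu ih =>
    rw [Finset.prod_insert hu, Finset.sum_insert hu, th_mul]
    have h1 := h u (Finset.mem_insert_self _ _)
    have h2 := ih fun v hv => h v (Finset.mem_insert_of_mem hv)
    have e : th (F u) * ∏ v ∈ s, F v + F u * th (∏ v ∈ s, F v) -
        F u * (∏ v ∈ s, F v) * (M u + ∑ v ∈ s, M v) =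
        (∏ v ∈ s, F v) * (th (F u) - F u * M u) +
        F u * (th (∏ v ∈ s, F v) - (∏ v ∈ s, F v) * ∑ v ∈ s, M v) := by ring
    rw [e]
    exact dvd_add (Dvd.dvd.mul_left h1 _) (Dvd.dvd.mul_left h2 _)

theorem Pl_shift (h : ZMod p → k) (hp : 2 ≤ p) :
    (X ^ p - 1 : k[X]) ∣ X * Pl p h - Pl p fun n => h (n - 1) := by
  have h1 := Lp_shift p h 1 1
  have h2 : (1 * 1 : ZMod p).val = 1 := by
    rw [mul_one]
    have : Fact (1 < p) := ⟨hp⟩
    exact ZMod.val_one p
  rw [h2, pow_one] at h1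
  unfold Lp at h1
  unfold Pl
  simp only [one_mul] at h1
  exact h1

theorem Pl_zero (h : ZMod p → k) (hd : (X ^ p - 1 : k[X]) ∣ Pl p h) : ∀ n, h n = 0 := by
  have hpp : 0 < p := (Fact.out : p.Prime).pos
  have hdeg : (Pl p h).natDegree < p := by
    have h1 : (Pl p h).natDegree ≤ p - 1 := by
      unfold Pl
      apply natDegree_sum_le_of_forall_le
      intro n _
      refine (natDegree_C_mul_X_pow_le _ _).trans ?_
      have := ZMod.val_lt n
      omega
    omega
  have hz : Pl p h = 0 := by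
    apply eq_zero_of_dvd_of_natDegree_lt hd
    rw [← C_1, natDegree_X_pow_sub_C]
    exact hdeg
  intro n
  have h1 := congrArg (fun P => coeff P n.val) hz
  unfold Pl at h1
  simp only [finsetSum_coeff, coeff_C_mul, coeff_X_pow, coeff_zero] at h1
  rw [Finset.sum_eq_single n] at h1
  · rw [if_pos rfl, mul_one] at h1
    exact h1
  · intro m _ hm
    rw [if_neg, mul_zero]
    intro e
    exact hm (ZMod.val_injective p e.symm)
  · intro hn
    exact absurd (Finset.mem_univ _) hn

theorem Pl_lin (x y z : k) (f g h : ZMod p → k) :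
    C x * Pl p f + C y * Pl p g + C z * Pl p h =
      Pl p fun n => x * f n + y * g n + z * h n := by
  unfold Pl
  rw [Finset.mul_sum, Finset.mul_sum, Finset.mul_sum, ← Finset.sum_add_distrib,
    ← Finset.sum_add_distrib]
  refine Finset.sum_congr rfl fun n _ => ?_
  rw [C_add, C_add, C_mul, C_mul, C_mul]
  ring

/-- if `(X - 1)^(p-2)` divides `∑ g(n) X^n` then the second differences of `g` vanish -/
theorem second_diff [CharP k p] (hp : 5 ≤ p) (g : ZMod p → k)
    (h : (X - 1 : k[X]) ^ (p - 2) ∣ Pl p g) (n : ZMod p) :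
    g n - 2 * g (n - 1) + g (n - 2) = 0 := by
  have hX : (X - 1 : k[X]) ^ p = X ^ p - 1 := by
    have := sub_pow_char (p := p) (X : k[X]) 1
    rwa [one_pow] at this
  have h1 : (X ^ p - 1 : k[X]) ∣ (X - 1) ^ 2 * Pl p g := by
    rw [← hX]
    have e : (X - 1 : k[X]) ^ p = (X - 1) ^ 2 * (X - 1) ^ (p - 2) := by
      rw [← pow_add]
      congr 1
      omega
    rw [e]
    exact mul_dvd_mul_left _ h
  have s1 := Pl_shift p g (by omega)
  have s2 := Pl_shift p (fun n => g (n - 1)) (by omega)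
  have h2 : (X ^ p - 1 : k[X]) ∣ Pl p fun n => 1 * g n + (-2) * g (n - 1) + 1 * g (n - 1 - 1) := by
    rw [← Pl_lin p 1 (-2) 1 g (fun n => g (n - 1)) fun n => g (n - 1 - 1)]
    have e : C 1 * Pl p g + C (-2) * Pl p (fun n => g (n - 1)) +
        C 1 * Pl p (fun n => g (n - 1 - 1)) =
        (X - 1) ^ 2 * Pl p g - (X * Pl p (fun n => g (n - 1)) - Pl p fun n => g (n - 1 - 1)) -
        (X - 2) * (X * Pl p g - Pl p fun n => g (n - 1)) := by
      have hc2 : (C (-2 : k) : k[X]) = -2 := by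
        rw [C_neg, C_ofNat]
      rw [C_1, hc2]
      ring
    rw [e]
    exact dvd_sub (dvd_sub h1 s2) (Dvd.dvd.mul_left s1 _)
  have h3 := Pl_zero p _ h2 n
  have e2 : n - 1 - 1 = n - 2 := by ring
  rw [e2] at h3
  linear_combination h3

/-- an even function with vanishing second differences is constant -/
theorem const_of_even [CharP k p] (hp : 5 ≤ p) (g : ZMod p → k)
    (h : ∀ n, g n - 2 * g (n - 1) + g (n - 2) = 0) (hev : ∀ n, g (-n) = g n) (n : ZMod p) :
    g n = g 0 := by
  have hd : ∀ m : ℕ, g m - g (m - 1) = g 0 - g (-1) := by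
    intro m
    induction m with
    | zero => simp
    | succ m ih =>
      have h1 := h ((m + 1 : ℕ) : ZMod p)
      have e1 : (((m + 1 : ℕ) : ZMod p)) - 1 = m := by push_cast; ring
      have e2 : (((m + 1 : ℕ) : ZMod p)) - 2 = m - 1 := by push_cast; ring
      rw [e1, e2] at h1
      rw [e1]
      linear_combination h1 + ih
  have h0 : g 0 - g (-1) = 0 := by
    have h1 := hd 1
    rw [Nat.cast_one, sub_self] at h1
    have h2 := hev 1
    rw [h2] at h1 ⊢
    have h3 : (2 : k) * (g 0 - g 1) = 0 := by linear_combination -h1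
    have h4 : (2 : k) ≠ 0 := by
      intro h5
      have h6 : ((2 : ℕ) : k) = 0 := by exact_mod_cast h5
      rw [CharP.cast_eq_zero_iff k p] at h6
      have := Nat.le_of_dvd (by norm_num) h6
      omega
    exact (mul_eq_zero.1 h3).resolve_left h4
  have h1 : ∀ m : ℕ, g m = g 0 := by
    intro m
    induction m with
    | zero => simp
    | succ m ih =>
      have h2 := hd (m + 1)
      have e1 : (((m + 1 : ℕ) : ZMod p)) - 1 = m := by push_cast; ring
      rw [e1, h0, ih] at h2
      linear_combination h2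
  have h2 := h1 n.val
  rwa [ZMod.natCast_zmod_val] at h2

/-- reordering of `L_c` -/
theorem Lp_Pl (a : ZMod p → k) (u : (ZMod p)ˣ) :
    Lp p a ((u⁻¹ : (ZMod p)ˣ) : ZMod p) = Pl p fun n => a (n * (u : ZMod p)) := by
  unfold Lp Pl
  rw [← Equiv.sum_comp (Units.mulRight u)]
  refine Finset.sum_congr rfl fun n _ => ?_
  rw [Units.mulRight_apply]
  congr 3
  change ((u⁻¹ : (ZMod p)ˣ) : ZMod p) * (n * (u : ZMod p)) = n
  rw [mul_comm n (u : ZMod p), ← mul_assoc, Units.inv_mul, one_mul]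

theorem Lp_Pl_neg (a : ZMod p → k) (u : (ZMod p)ˣ) :
    Lp p a (-((u⁻¹ : (ZMod p)ˣ) : ZMod p)) = Pl p fun n => a (-(n * (u : ZMod p))) := by
  have h := Lp_Pl p a (-u)
  have e1 : (((-u)⁻¹ : (ZMod p)ˣ) : ZMod p) = -((u⁻¹ : (ZMod p)ˣ) : ZMod p) := by
    rw [inv_neg, Units.val_neg]
  rw [e1] at h
  rw [h]
  congr 1
  funext n
  rw [Units.val_neg, mul_neg]

theorem Pl_zero_fun (i : k) : Pl p (fun n : ZMod p => if n = 0 then i else 0) = C i := by
  unfold Pl
  rw [Finset.sum_eq_single 0]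
  · change C (if (0 : ZMod p) = 0 then i else 0) * X ^ (0 : ZMod p).val = C i
    rw [if_pos rfl, ZMod.val_zero, pow_zero, mul_one]
  · intro n _ hn
    change C (if n = 0 then i else 0) * X ^ n.val = 0
    rw [if_neg hn, C_0, zero_mul]
  · intro h
    exact absurd (Finset.mem_univ _) h

theorem Pl_sum {ι : Type*} (s : Finset ι) (f : ι → ZMod p → k) :
    ∑ u ∈ s, Pl p (f u) = Pl p fun n => ∑ u ∈ s, f u n := by
  unfold Pl
  rw [Finset.sum_comm]
  refine Finset.sum_congr rfl fun n _ => ?_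
  rw [map_sum, Finset.sum_mul]

theorem eval_fx (a t b : k) (j : ℕ) : eval 1 (fx a t b j) = a + t + b := by
  unfold fx
  simp

end gen

end LGD_

open LGD_ EIB_ in
theorem p_LGD : T_LGD := by
  intro p _ hp k _ _ A T B i hN hi hdvd a ha ha0 n hn
  have : CharP k p := charP_of_injective_algebraMap (algebraMap (ZMod p) k).injective p
  have hchar : (X - 1 : k[X]) ^ p = X ^ p - 1 := by
    have := sub_pow_char (p := p) (X : k[X]) 1
    rwa [one_pow] at this
  set φ := algebraMap (ZMod p) k with hφ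
  set W : k[X] := ∏ u ∈ half p, fx (φ A) (φ T) (φ B) ((u⁻¹ : (ZMod p)ˣ) : ZMod p).val with hW
  set V : k[X] := ∏ u ∈ half p, fx (φ A) (φ T) (φ B) (-((u⁻¹ : (ZMod p)ˣ) : ZMod p)).val with hV
  set M : (ZMod p)ˣ → k[X] := fun u => C (φ ((u⁻¹ : (ZMod p)ˣ) : ZMod p)) *
    Lp p a ((u⁻¹ : (ZMod p)ˣ) : ZMod p) with hM
  set M' : (ZMod p)ˣ → k[X] := fun u => C (φ (-((u⁻¹ : (ZMod p)ˣ) : ZMod p))) *
    Lp p a (-((u⁻¹ : (ZMod p)ˣ) : ZMod p)) with hM'
  -- transfer of the hypothesis
  have h1 : (X - 1 : k[X]) ^ (p - 1) ∣ W - X ^ i * V := by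
    have h2 := map_dvd (mapRingHom φ) hdvd
    have hFk : ∀ j : ℕ, mapRingHom φ (Fk p A T B j) = fx (φ A) (φ T) (φ B) j := by
      intro j
      unfold Fk fx
      simp
    have hWm : mapRingHom φ (Wp p A T B 1) = W := by
      unfold Wp
      rw [map_prod]
      refine Finset.prod_congr rfl fun u _ => ?_
      rw [hFk, one_mul]
    have hVm : mapRingHom φ (Wp p A T B (-1)) = V := by
      unfold Wp
      rw [map_prod]
      refine Finset.prod_congr rfl fun u _ => ?_
      rw [hFk, neg_one_mul]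
    have hXm : mapRingHom φ X = X := by simp
    rw [map_pow, map_sub, map_one, hXm, map_sub, map_mul, map_pow, hXm, hWm, hVm] at h2
    exact h2
  set D : k[X] := (X - 1) ^ (p - 2) with hD
  have hDp : D ∣ X ^ p - 1 := by
    rw [← hchar]
    exact pow_dvd_pow _ (by omega)
  -- the factors
  have hfac : ∀ c : ZMod p, (X ^ p - 1 : k[X]) ∣ th (fx (φ A) (φ T) (φ B) c.val) -
      fx (φ A) (φ T) (φ B) c.val * (C (φ c) * Lp p a c) := by
    intro c
    have h2 := Lp_eq p (φ A) (φ T) (φ B) a ha c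
    have h3 : ((c.val : ℕ) : k) = φ c := by
      conv_rhs => rw [← ZMod.natCast_zmod_val c]
      rw [map_natCast]
    rw [th_fx, h3]
    have e : C (φ c) * (C (φ T) * X ^ c.val + 2 * C (φ B) * (X ^ c.val) ^ 2) -
        fx (φ A) (φ T) (φ B) c.val * (C (φ c) * Lp p a c) =
        C (φ c) * ((C (φ T) * X ^ c.val + 2 * C (φ B) * (X ^ c.val) ^ 2) -
          fx (φ A) (φ T) (φ B) c.val * Lp p a c) := by ring
    rw [e]
    exact Dvd.dvd.mul_left h2 _
  have hthW : D ∣ th W - W * ∑ u ∈ half p, M u :=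
    logd D (half p) _ M fun u _ => hDp.trans (hfac _)
  have hthV : D ∣ th V - V * ∑ u ∈ half p, M' u :=
    logd D (half p) _ M' fun u _ => hDp.trans (hfac _)
  -- the derivative of the divisibility
  set W0 : k[X] := W - X ^ i * V with hW0
  have hd0 : D ∣ th W0 := by
    have h3 := pow_sub_one_dvd_derivative_of_pow_dvd h1
    rw [show p - 1 - 1 = p - 2 by omega] at h3
    exact Dvd.dvd.mul_left h3 X
  have hd0' : D ∣ W0 := (pow_dvd_pow _ (by omega)).trans h1
  have hthW0 : th W0 = th W - (C (i : k) * X ^ i * V + X ^ i * th V) := by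
    have h5 : th (W - X ^ i * V) = th W - th (X ^ i * V) := by
      unfold th
      rw [derivative_sub]
      ring
    rw [hW0, h5, th_mul, th_X_pow]
  have hdiv : D ∣ W * V * (∑ u ∈ half p, M u - ∑ u ∈ half p, M' u - C (i : k)) := by
    have e : W * V * (∑ u ∈ half p, M u - ∑ u ∈ half p, M' u - C (i : k)) =
        - (V * (th W - W * ∑ u ∈ half p, M u)) + W * (th V - V * ∑ u ∈ half p, M' u) +
        V * th W0 - W0 * th V - C (i : k) * V * W0 := by
      rw [hthW0, hW0]
      ring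
    rw [e]
    refine dvd_sub (dvd_sub (dvd_add (dvd_add ?_ ?_) ?_) ?_) ?_
    · exact (dvd_neg).2 (Dvd.dvd.mul_left hthW _)
    · exact Dvd.dvd.mul_left hthV _
    · exact Dvd.dvd.mul_left hd0 _
    · exact Dvd.dvd.mul_right hd0' _
    · exact Dvd.dvd.mul_left hd0' _
  have hNk : φ A + φ T + φ B ≠ 0 := by
    rw [← map_add, ← map_add]
    intro h
    exact hN ((map_eq_zero φ).1 h)
  have hWV1 : eval 1 (W * V) ≠ 0 := by
    rw [eval_mul, hW, hV, eval_prod, eval_prod]
    refine mul_ne_zero ?_ ?_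
    · rw [Finset.prod_ne_zero_iff]
      intro u _
      rw [eval_fx]
      exact hNk
    · rw [Finset.prod_ne_zero_iff]
      intro u _
      rw [eval_fx]
      exact hNk
  have hcop : IsCoprime D (W * V) := by
    rw [hD]
    apply IsCoprime.pow_left
    have h3 : ((X : k[X]) - 1) = X - C 1 := by simp
    rw [h3, (irreducible_X_sub_C (1 : k)).coprime_iff_not_dvd, dvd_iff_isRoot]
    exact hWV1
  have hdiv2 : D ∣ ∑ u ∈ half p, M u - ∑ u ∈ half p, M' u - C (i : k) :=
    hcop.dvd_of_dvd_mul_left hdiv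
  -- the function `g`
  set g : ZMod p → k := fun n => ∑ u ∈ half p, φ ((u⁻¹ : (ZMod p)ˣ) : ZMod p) *
    (a (n * (u : ZMod p)) + a (-(n * (u : ZMod p)))) + (if n = 0 then -(i : k) else 0) with hg
  have hPg : ∑ u ∈ half p, M u - ∑ u ∈ half p, M' u - C (i : k) = Pl p g := by
    have e1 : ∑ u ∈ half p, M u - ∑ u ∈ half p, M' u =
        Pl p fun n => ∑ u ∈ half p, φ ((u⁻¹ : (ZMod p)ˣ) : ZMod p) *
          (a (n * (u : ZMod p)) + a (-(n * (u : ZMod p)))) := by
      rw [← Finset.sum_sub_distrib, ← Pl_sum]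
      refine Finset.sum_congr rfl fun u _ => ?_
      rw [hM, hM']
      simp only
      rw [Lp_Pl, Lp_Pl_neg]
      have h4 := Pl_lin p (φ ((u⁻¹ : (ZMod p)ˣ) : ZMod p)) (φ ((u⁻¹ : (ZMod p)ˣ) : ZMod p)) 0
        (fun n => a (n * (u : ZMod p))) (fun n => a (-(n * (u : ZMod p)))) (fun _ => 0)
      rw [C_0, zero_mul, add_zero] at h4
      rw [map_neg, C_neg, neg_mul, sub_neg_eq_add, h4]
      congr 1
      funext n
      ring
    have e2 := Pl_lin p 1 1 0 (fun n => ∑ u ∈ half p, φ ((u⁻¹ : (ZMod p)ˣ) : ZMod p) *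
          (a (n * (u : ZMod p)) + a (-(n * (u : ZMod p)))))
          (fun n : ZMod p => if n = 0 then -(i : k) else 0) (fun _ => 0)
    rw [C_0, zero_mul, add_zero, C_1, one_mul, one_mul, Pl_zero_fun] at e2
    rw [e1, sub_eq_add_neg, ← C_neg, e2]
    congr 1
    funext n
    rw [hg]
    ring
  rw [hPg, hD] at hdiv2
  have hsd := second_diff p hp g hdiv2
  have hev : ∀ n, g (-n) = g n := by
    intro n
    rw [hg]
    simp only
    congr 1
    · refine Finset.sum_congr rfl fun u _ => ?_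
      rw [neg_mul, neg_neg, add_comm]
    · by_cases h : n = 0
      · rw [h, neg_zero]
      · rw [if_neg h, if_neg (by rwa [neg_eq_zero])]
  have hconst := const_of_even p hp g hsd hev n
  have hg0 : g 0 = 0 := by
    have e : g 0 = 2 * a 0 * φ (Hs p) - i := by
      rw [hg]
      simp only [zero_mul, neg_zero]
      rw [if_pos trivial]
      unfold Hs
      rw [map_sum, Finset.mul_sum, sub_eq_add_neg]
      congr 1
      refine Finset.sum_congr rfl fun u _ => ?_
      ring
    have h5 : (φ A + φ T + φ B) * g 0 = 0 := by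
      rw [e]
      have h6 := congrArg φ hi
      simp only [map_mul, map_add, map_natCast, map_ofNat] at h6 ha0
      linear_combination 2 * φ (Hs p) * ha0 - h6
    exact (mul_eq_zero.1 h5).resolve_left hNk
  rw [hg0, hg] at hconst
  simp only at hconst
  rw [if_neg hn, add_zero] at hconst
  exact hconst

end Pool.Agent.FCM
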