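import Pool.Agent.FCM.Targets

/-!
# Mirimanoff's congruence, trace form: assembly
-/

open NumberField Polynomial

namespace Pool.Agent.FCM

open Pool.Agent.FCW

namespace MIR_

variable {p : ℕ} [Fact p.Prime]

section Field

variable {k : Type} [Field k] [Algebra (ZMod p) k]

theorem charP_k : CharP k p := by
  have : Nontrivial k := inferInstance
  exact charP_of_injective_algebraMap (algebraMap (ZMod p) k).injective p

theorem one_add_pow (t : k) : 1 + t ^ p = (1 + t) ^ p := by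
  have : CharP k p := charP_k (p := p)
  rw [add_pow_char, one_pow]

/-- the recurrence of the closed form -/
theorem aC_rec (hodd : Odd p) (h5 : 5 ≤ p) {t : k} (ht : 1 + t ≠ 0) (m : ZMod p) :
    aC p t m + t * aC p t (m - 1) = if m = 1 then t else 0 := by
  have hp : p.Prime := Fact.out
  have hd : 1 + t ^ p ≠ 0 := by
    rw [one_add_pow]
    exact pow_ne_zero _ ht
  have h10 : (1 : ZMod p) ≠ 0 := one_ne_zero
  unfold aC
  by_cases hm0 : m = 0
  · subst hm0
    have h1 : (0 : ZMod p) - 1 ≠ 0 := by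
      rw [zero_sub]
      exact neg_ne_zero.mpr h10
    have h2 : ((0 : ZMod p) - 1).val = p - 1 := by
      rw [zero_sub, ZMod.neg_val, if_neg h10, ZMod.val_one]
    rw [if_pos rfl, if_neg h1, if_neg (fun h => h10 h.symm), h2]
    have h3 : (-t) ^ (p - 1) = t ^ (p - 1) := by
      apply Even.neg_pow
      obtain ⟨r, hr⟩ := hodd
      exact ⟨r, by omega⟩
    have h4 : t * t ^ (p - 1) = t ^ p := by
      rw [← pow_succ', Nat.sub_add_cancel hp.one_le]
    rw [h3]
    field_simp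
    rw [← h4]
    ring
  · rw [if_neg hm0]
    by_cases hm1 : m = 1
    · subst hm1
      rw [if_pos (sub_self _), if_pos rfl, ZMod.val_one, pow_one]
      field_simp
    · have h1 : m - 1 ≠ 0 := fun h => hm1 (sub_eq_zero.mp h)
      have h2 : m.val = (m - 1).val + 1 := by
        have h3 : m = ((m - 1).val + 1 : ℕ) := by
          rw [Nat.cast_add, ZMod.natCast_zmod_val, Nat.cast_one]
          ring
        have h4 : (m - 1).val + 1 < p := by
          have h5 := ZMod.val_lt (m - 1)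
          rcases Nat.lt_or_ge ((m - 1).val + 1) p with h6 | h6
          · exact h6
          · exfalso
            have h7 : (m - 1).val + 1 = p := by omega
            apply hm0
            rw [h3, h7, ZMod.natCast_self]
        conv_lhs => rw [h3]
        exact ZMod.val_cast_of_lt h4
      rw [if_neg h1, if_neg hm1, h2, pow_succ]
      field_simp
      ring

/-- Frobenius permutes the two roots -/
theorem frob {A : k} (hA : A ≠ 0) (hAp : A ^ p = A) {t₁ t₂ : k}
    (h1 : (A * (t₁ + t₂)) ^ p = A * (t₁ + t₂)) (h2 : (A * (t₁ * t₂)) ^ p = A * (t₁ * t₂)) :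
    t₁ ^ p + t₂ ^ p = t₁ + t₂ ∧ t₁ ^ p * t₂ ^ p = t₁ * t₂ ∧
      ((t₁ ^ p = t₁ ∧ t₂ ^ p = t₂) ∨ (t₁ ^ p = t₂ ∧ t₂ ^ p = t₁)) := by
  have : CharP k p := charP_k (p := p)
  rw [mul_pow, hAp, add_pow_char] at h1
  rw [mul_pow, hAp, mul_pow] at h2
  have e1 := mul_left_cancel₀ hA h1
  have e2 := mul_left_cancel₀ hA h2
  refine ⟨e1, e2, ?_⟩
  have h3 : (t₁ ^ p - t₁) * (t₁ ^ p - t₂) = 0 := by
    linear_combination t₁ ^ p * e1 - e2
  rcases mul_eq_zero.mp h3 with h4 | h4
  · left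
    have h5 : t₁ ^ p = t₁ := sub_eq_zero.mp h4
    exact ⟨h5, by rw [h5] at e1; exact add_left_cancel e1⟩
  · right
    have h5 : t₁ ^ p = t₂ := sub_eq_zero.mp h4
    refine ⟨h5, ?_⟩
    rw [h5, add_comm] at e1
    exact add_right_cancel e1

end Field

/-- sums over the units of `ZMod p` -/
theorem sum_units {k : Type} [Field k] (f : ZMod p → k) :
    ∑ u : (ZMod p)ˣ, f u = ∑ m ∈ Finset.Ico 1 p, f (m : ZMod p) := by
  refine Finset.sum_bij (fun u _ => (u : ZMod p).val) ?_ ?_ ?_ ?_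
  · intro u _
    rw [Finset.mem_Ico]
    refine ⟨?_, ZMod.val_lt _⟩
    rw [Nat.one_le_iff_ne_zero, ne_eq, ZMod.val_eq_zero]
    exact u.ne_zero
  · intro u _ v _ h
    exact Units.ext (ZMod.val_injective p h)
  · intro m hm
    rw [Finset.mem_Ico] at hm
    have h0 : (m : ZMod p) ≠ 0 := by
      intro h
      rw [ZMod.natCast_eq_zero_iff] at h
      exact absurd (Nat.le_of_dvd (by omega) h) (by omega)
    refine ⟨Units.mk0 (m : ZMod p) h0, Finset.mem_univ _, ?_⟩
    rw [Units.val_mk0]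
    exact ZMod.val_cast_of_lt hm.2
  · intro u _
    rw [ZMod.natCast_zmod_val]

theorem cw_neg (n : ZMod p) : cw p (-n) = cw p n := by
  unfold cw
  rw [neg_pow_two]

/-- the weighted sum of the relations -/
theorem weighted {k : Type} [Field k] [Algebra (ZMod p) k] (h5 : 5 ≤ p) (a : ZMod p → k)
    (hP : ∀ n : ZMod p, n ≠ 0 → ∑ u ∈ half p, algebraMap (ZMod p) k ((u⁻¹ : (ZMod p)ˣ) : ZMod p) *
      (a (n * (u : ZMod p)) + a (-(n * (u : ZMod p)))) = 0)
    (hK : ∀ m : ℕ, 1 ≤ m → m < p → ∑ u ∈ half p, ((u⁻¹ : (ZMod p)ˣ) : ZMod p) *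
      cw p ((m : ZMod p) * ((u⁻¹ : (ZMod p)ˣ) : ZMod p)) = Kc p m) :
    ∑ m ∈ Finset.Ico 1 p, algebraMap (ZMod p) k (Kc p m) * a (m : ZMod p) = 0 := by
  have h2 : (2 : k) ≠ 0 := by
    have h3 : ((2 : ℕ) : ZMod p) ≠ 0 := by
      intro h
      rw [ZMod.natCast_eq_zero_iff] at h
      exact absurd (Nat.le_of_dvd (by omega) h) (by omega)
    have h4 : algebraMap (ZMod p) k ((2 : ℕ) : ZMod p) ≠ 0 := by
      rw [_root_.map_ne_zero]
      exact h3
    rw [map_natCast] at h4
    exact_mod_cast h4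
  set KK : (ZMod p)ˣ → ZMod p := fun m => ∑ u ∈ half p, ((u⁻¹ : (ZMod p)ˣ) : ZMod p) *
      cw p ((m : ZMod p) * ((u⁻¹ : (ZMod p)ˣ) : ZMod p)) with hKK
  have hKneg : ∀ m, KK (-m) = KK m := by
    intro m
    simp only [hKK]
    refine Finset.sum_congr rfl fun u _ => ?_
    rw [Units.val_neg, neg_mul, cw_neg]
  have e1 : ∑ n : (ZMod p)ˣ, algebraMap (ZMod p) k (cw p n) *
      ∑ u ∈ half p, algebraMap (ZMod p) k ((u⁻¹ : (ZMod p)ˣ) : ZMod p) *
        (a ((n : ZMod p) * (u : ZMod p)) + a (-((n : ZMod p) * (u : ZMod p)))) = 0 := by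
    refine Finset.sum_eq_zero fun n _ => ?_
    rw [hP n n.ne_zero, mul_zero]
  have e2 : ∀ u : (ZMod p)ˣ, ∑ n : (ZMod p)ˣ, algebraMap (ZMod p) k (cw p n) *
      (algebraMap (ZMod p) k ((u⁻¹ : (ZMod p)ˣ) : ZMod p) *
        (a ((n : ZMod p) * (u : ZMod p)) + a (-((n : ZMod p) * (u : ZMod p))))) =
      ∑ m : (ZMod p)ˣ, algebraMap (ZMod p) k (((u⁻¹ : (ZMod p)ˣ) : ZMod p) *
        cw p ((m : ZMod p) * ((u⁻¹ : (ZMod p)ˣ) : ZMod p))) * (a m + a (-(m : ZMod p))) := by
    intro u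
    refine Fintype.sum_equiv (Equiv.mulRight u) _ _ ?_
    intro n
    rw [Equiv.coe_mulRight, Units.val_mul]
    have h3 : (n : ZMod p) * (u : ZMod p) * ((u⁻¹ : (ZMod p)ˣ) : ZMod p) = n := by
      rw [mul_assoc, Units.mul_inv, mul_one]
    rw [h3, map_mul]
    ring
  have e3 : ∑ m : (ZMod p)ˣ, algebraMap (ZMod p) k (KK m) * (a m + a (-(m : ZMod p))) = 0 := by
    rw [← e1]
    simp only [Finset.mul_sum]
    rw [Finset.sum_comm]
    simp only [e2]
    rw [Finset.sum_comm]
    refine Finset.sum_congr rfl fun m _ => ?_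
    rw [← Finset.sum_mul, hKK, map_sum]
  have e4 : ∑ m : (ZMod p)ˣ, algebraMap (ZMod p) k (KK m) * a (-(m : ZMod p)) =
      ∑ m : (ZMod p)ˣ, algebraMap (ZMod p) k (KK m) * a m := by
    refine Fintype.sum_equiv (Equiv.neg (ZMod p)ˣ) _ _ ?_
    intro m
    rw [Equiv.neg_apply, hKneg, Units.val_neg]
  have e5 : ∑ m : (ZMod p)ˣ, algebraMap (ZMod p) k (KK m) * a m = 0 := by
    simp only [mul_add, Finset.sum_add_distrib] at e3
    rw [e4, ← two_mul] at e3
    exact (mul_eq_zero.mp e3).resolve_left h2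
  rw [← e5]
  have e6 := sum_units (p := p) (k := k) (fun m => algebraMap (ZMod p) k (∑ u ∈ half p,
    ((u⁻¹ : (ZMod p)ˣ) : ZMod p) * cw p (m * ((u⁻¹ : (ZMod p)ˣ) : ZMod p))) * a m)
  rw [hKK]
  refine Eq.trans ?_ e6.symm
  refine Finset.sum_congr rfl fun m hm => ?_
  rw [Finset.mem_Ico] at hm
  rw [hK m hm.1 hm.2]

end MIR_

open MIR_ in
theorem p_MIR (hKEY : T_KEY) (hPAD : T_PAD) (hHARM : T_HARM) (hPRM : T_PRM) (hMPA : T_MPA)
    (hLGD : T_LGD) (hKTL : T_KTL) (hFSM : T_FSM) : T_MIR := by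
  intro p _ h5 hW A T B hprim hN ⟨b, hb⟩ k _ _ t₁ t₂ hT hB hS1 hS2
  have hp : p.Prime := Fact.out
  have hodd : Odd p := hp.odd_of_ne_two (by omega)
  have hP := hPRM p A T B hprim hN
  have hPM : PM p b := by
    intro l hl hbl q hq hql
    refine hP l hl ?_ q hq hql
    have h1 : Fz p A T B ∈ b ^ p := by
      rw [← hb]
      exact Ideal.mem_span_singleton_self _
    exact hbl (Ideal.pow_le_self hp.ne_zero h1)
  have hH : Hs p ≠ 0 := fun h => hW (hHARM p (by omega) h)
  -- the field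
  have : CharP k p := charP_k (p := p)
  have hinj : Function.Injective (algebraMap (ZMod p) k) := (algebraMap (ZMod p) k).injective
  have cast : ∀ n : ℤ, algebraMap (ZMod p) k (n : ZMod p) = (n : k) := fun n => map_intCast _ n
  have hN' : ((A : ZMod p) + T + B) ≠ 0 := by
    intro h
    apply hN
    rw [← ZMod.intCast_zmod_eq_zero_iff_dvd]
    push_cast
    exact h
  have hNk : (A : k) * ((1 + t₁) * (1 + t₂)) ≠ 0 := by
    have h1 : (A : k) * ((1 + t₁) * (1 + t₂)) = algebraMap (ZMod p) k ((A : ZMod p) + T + B) := by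
      rw [map_add, map_add, cast, cast, cast, hT, hB]
      ring
    rw [h1]
    exact (_root_.map_ne_zero _).mpr hN'
  have hA0 : (A : k) ≠ 0 := left_ne_zero_of_mul hNk
  have h11 : 1 + t₁ ≠ 0 := left_ne_zero_of_mul (right_ne_zero_of_mul hNk)
  have h12 : 1 + t₂ ≠ 0 := right_ne_zero_of_mul (right_ne_zero_of_mul hNk)
  have hd1 : 1 + t₁ ^ p ≠ 0 := by rw [one_add_pow]; exact pow_ne_zero _ h11
  have hd2 : 1 + t₂ ^ p ≠ 0 := by rw [one_add_pow]; exact pow_ne_zero _ h12
  have hfr : ∀ n : ℤ, (n : k) ^ p = n := by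
    intro n
    rw [← cast, ← map_pow, ZMod.pow_card]
  obtain ⟨s1, s2, hfrob⟩ := frob hA0 (hfr A) (by rw [← hT]; exact hfr T)
    (by rw [← hB]; exact hfr B)
  -- the key equation
  have hβ0 : Fz p A T B ≠ 0 := by
    intro h0
    have h1 := hprim
    apply hN
    have hζ := IsCyclotomicExtension.zeta_spec p ℚ (Cy p)
    have h2 : (zt p - 1) ∣ ((A + T + B : ℤ) : Oc p) := by
      have h3 : ((A + T + B : ℤ) : Oc p) = Fz p A T B - (zt p - 1) * (T + B * (zt p + 1)) := by
        unfold Fz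
        push_cast
        ring
      rw [h3, h0, zero_sub]
      exact (Dvd.intro _ rfl).neg_right
    exact (IsCyclotomicExtension.Rat.zeta_sub_one_dvd_intCast_iff' p hζ).mp h2
  obtain ⟨γ, n, i, e, hk⟩ := hKEY p h5 (Fz p A T B) b hβ0 hb hPM
  have hpad := hPAD p h5 A T B hN γ n i e hk
  push_cast at hpad
  have hdiv := hMPA p h5 A T B hN γ n i e hk
  -- the coefficients
  set a : ZMod p → k := fun m => aC p t₁ m + aC p t₂ m with ha
  have hrec : ∀ m : ZMod p, algebraMap (ZMod p) k (A : ZMod p) * a m +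
      algebraMap (ZMod p) k (T : ZMod p) * a (m - 1) +
      algebraMap (ZMod p) k (B : ZMod p) * a (m - 2) =
      (if m = 1 then algebraMap (ZMod p) k (T : ZMod p) else 0) +
      (if m = 2 then 2 * algebraMap (ZMod p) k (B : ZMod p) else 0) := by
    intro m
    have q1 := aC_rec hodd h5 h11 m
    have q2 := aC_rec hodd h5 h12 m
    have q3 := aC_rec hodd h5 h11 (m - 1)
    have q4 := aC_rec hodd h5 h12 (m - 1)
    have e1 : m - 1 - 1 = m - 2 := by ring
    have e2 : (m - 1 = 1) = (m = 2) := by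
      rw [eq_iff_iff]
      constructor
      · intro h
        linear_combination h
      · intro h
        linear_combination h
    rw [e1] at q3 q4
    simp only [e2] at q3 q4
    rw [cast, cast, cast, hT, hB]
    have g1 : ∀ t : k, (if m = 1 then t else 0) = t * (if m = 1 then 1 else 0) := by
      intro t; split_ifs <;> simp
    have g2 : ∀ t : k, (if m = 2 then t else 0) = t * (if m = 2 then 1 else 0) := by
      intro t; split_ifs <;> simp
    rw [g1] at q1 q2
    rw [g2] at q3 q4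
    rw [g1, g2]
    simp only [ha]
    linear_combination (A : k) * q1 + (A : k) * q2 + (A : k) * t₂ * q3 + (A : k) * t₁ * q4
  have ha0 : algebraMap (ZMod p) k ((A : ZMod p) + T + B) * a 0 =
      algebraMap (ZMod p) k ((T : ZMod p) + 2 * B) := by
    have h1 : a 0 = t₁ ^ p / (1 + t₁ ^ p) + t₂ ^ p / (1 + t₂ ^ p) := by
      simp only [ha, aC, if_true]
    have h2 : (1 + t₁ ^ p) * (1 + t₂ ^ p) = (1 + t₁) * (1 + t₂) := by
      linear_combination s1 + s2
    have h3 : a 0 * ((1 + t₁) * (1 + t₂)) = t₁ + t₂ + 2 * (t₁ * t₂) := by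
      rw [← h2, h1]
      field_simp
      linear_combination s1 + 2 * s2
    rw [map_add, map_add, map_add, map_mul, cast, cast, cast, map_ofNat, hT, hB]
    linear_combination (A : k) * h3
  have hPn := hLGD p h5 k (A : ZMod p) T B i hN' (by rw [hpad]) hdiv a hrec ha0
  have hsum := weighted h5 a hPn (fun m h1 h2 => hKTL p h5 m h1 h2)
  -- the closed form
  have hcl : ∀ m ∈ Finset.Ico 1 p, algebraMap (ZMod p) k (Kc p m) * a (m : ZMod p) =
      -(algebraMap (ZMod p) k (Kc p m) * (-t₁) ^ m) / (1 + t₁ ^ p) +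
      -(algebraMap (ZMod p) k (Kc p m) * (-t₂) ^ m) / (1 + t₂ ^ p) := by
    intro m hm
    rw [Finset.mem_Ico] at hm
    have h0 : (m : ZMod p) ≠ 0 := by
      intro h
      rw [ZMod.natCast_eq_zero_iff] at h
      exact absurd (Nat.le_of_dvd (by omega) h) (by omega)
    simp only [ha, aC, if_neg h0, ZMod.val_cast_of_lt hm.2]
    ring
  rw [Finset.sum_congr rfl hcl, Finset.sum_add_distrib, ← Finset.sum_div, ← Finset.sum_div,
    Finset.sum_neg_distrib, Finset.sum_neg_distrib] at hsum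
  have f1 := hFSM p h5 k t₁ hS1
  have f2 := hFSM p h5 k t₂ hS2
  have n1 : t₁ ≠ 1 := fun h => hH (f1.1 h)
  have n2 : t₂ ≠ 1 := fun h => hH (f2.1 h)
  rw [f1.2 n1, f2.2 n2] at hsum
  have m1 : 1 - t₁ ≠ 0 := sub_ne_zero.mpr (Ne.symm n1)
  have m2 : 1 - t₂ ≠ 0 := sub_ne_zero.mpr (Ne.symm n2)
  have hHk : algebraMap (ZMod p) k (Hs p) ≠ 0 := (_root_.map_ne_zero _).mpr hH
  have h2 : (2 : k) ≠ 0 := by
    have h3 : ((2 : ℕ) : ZMod p) ≠ 0 := by
      intro h
      rw [ZMod.natCast_eq_zero_iff] at h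
      exact absurd (Nat.le_of_dvd (by omega) h) (by omega)
    have h4 : algebraMap (ZMod p) k ((2 : ℕ) : ZMod p) ≠ 0 := (_root_.map_ne_zero _).mpr h3
    rw [map_natCast] at h4
    exact_mod_cast h4
  have hkey : (t₁ + t₂) * (1 - t₁ * t₂) = 0 := by
    rcases hfrob with ⟨r1, r2⟩ | ⟨r1, r2⟩
    · rw [r1, r2] at hsum
      rw [r1] at hd1
      rw [r2] at hd2
      field_simp at hsum
      have h3 : (algebraMap (ZMod p) k (Hs p)) * 2 * ((t₁ + t₂) * (1 - t₁ * t₂)) = 0 := by
        linear_combination -hsum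
      rcases mul_eq_zero.mp h3 with h4 | h4
      · exact absurd h4 (mul_ne_zero hHk h2)
      · exact h4
    · rw [r1, r2] at hsum
      rw [r1] at hd1
      rw [r2] at hd2
      field_simp at hsum
      have h3 : (algebraMap (ZMod p) k (Hs p)) * 2 * ((t₁ + t₂) * (1 - t₁ * t₂)) = 0 := by
        linear_combination -hsum
      rcases mul_eq_zero.mp h3 with h4 | h4
      · exact absurd h4 (mul_ne_zero hHk h2)
      · exact h4
  have hfin : algebraMap (ZMod p) k ((T * (A - B) : ℤ) : ZMod p) = 0 := by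
    rw [cast]
    push_cast
    rw [hT, hB]
    linear_combination (A : k) ^ 2 * hkey
  rw [← ZMod.intCast_zmod_eq_zero_iff_dvd]
  exact hinj (hfin.trans (map_zero _).symm)

end Pool.Agent.FCM
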