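import Pool.Agent.FCM.Targets
import Pool.Agent.FCW.MODP
import Pool.Agent.FCW.HARM

/-!
# SFQ: the binomial quotient at the primes above `p` of a quadratic field
-/

open NumberField Polynomial

namespace Pool.Agent.FCM

open Pool.Agent.FCW

namespace SFQ_

/-- the binomial quotient -/
def Sq {R : Type*} [CommRing R] (p : ℕ) (x y : R) : R :=
  ∑ m ∈ Finset.Ico 1 p, ((p.choose m / p : ℕ) : R) * (x ^ (p - m) * y ^ m)

theorem pow_eq {R : Type*} [CommRing R] {p : ℕ} (hp : p.Prime) (x y : R) :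
    (x + y) ^ p = x ^ p + y ^ p + p * Sq p x y := by
  have hp0 : 0 < p := hp.pos
  rw [add_comm x y, add_pow, Finset.sum_range_succ, Finset.range_eq_Ico,
    Finset.sum_eq_sum_Ico_succ_bot hp0]
  have h : ∑ k ∈ Finset.Ico (0 + 1) p, y ^ k * x ^ (p - k) * ((p.choose k : ℕ) : R) =
      p * Sq p x y := by
    unfold Sq
    rw [Finset.mul_sum, zero_add]
    refine Finset.sum_congr rfl fun k hk => ?_
    rw [Finset.mem_Ico] at hk
    have hd : p ∣ p.choose k := hp.dvd_choose_self (by omega) hk.2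
    have h2 : ((p.choose k : ℕ) : R) = (p : R) * ((p.choose k / p : ℕ) : R) := by
      rw [← Nat.cast_mul, Nat.mul_div_cancel' hd]
    rw [h2]
    ring
  rw [h]
  simp only [pow_zero, tsub_zero, Nat.choose_zero_right, Nat.cast_one, Nat.choose_self,
    tsub_self]
  ring

theorem map_Sq {R S : Type*} [CommRing R] [CommRing S] (f : R →+* S) (p : ℕ) (x y : R) :
    f (Sq p x y) = Sq p (f x) (f y) := by
  unfold Sq
  rw [map_sum]
  refine Finset.sum_congr rfl fun m _ => ?_
  rw [map_mul, map_natCast, map_mul, map_pow, map_pow]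

theorem cast_quot (p : ℕ) [Fact p.Prime] (hp3 : 3 ≤ p) {k : Type} [Field k] [Algebra (ZMod p) k]
    {m : ℕ} (hm : m ∈ Finset.Ico 1 p) :
    ((p.choose m / p : ℕ) : k) = (-1) ^ (m - 1) / (m : k) := by
  have hp : p.Prime := Fact.out
  have hm' := Finset.mem_Ico.1 hm
  have hm0 : (m : k) ≠ 0 := by
    have h := HARM_.cast_ne p hm
    intro h0
    apply h
    apply (algebraMap (ZMod p) k).injective
    rw [map_natCast, h0, map_zero]
  have hd : p ∣ p.choose m := hp.dvd_choose_self (by omega) hm'.2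
  have h1 : p.choose m / p * m = (p - 1).choose (m - 1) := by
    have h2 := Nat.add_one_mul_choose_eq (p - 1) (m - 1)
    rw [Nat.sub_add_cancel (by omega : 1 ≤ p),
      Nat.sub_add_cancel hm'.1] at h2
    apply Nat.eq_of_mul_eq_mul_left hp.pos
    rw [h2, ← mul_assoc, Nat.mul_div_cancel' hd]
  have h3 := HARM_.choose_pred p hp3 (m - 1) (by omega)
  have h4 := congrArg (algebraMap (ZMod p) k) h3
  rw [map_natCast, map_pow, map_neg, map_one] at h4
  rw [eq_div_iff hm0, ← Nat.cast_mul, h1, h4]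

theorem Sq_eq (p : ℕ) [Fact p.Prime] (hp3 : 3 ≤ p) {k : Type} [Field k] [Algebra (ZMod p) k]
    (a b : k) (ha : a ≠ 0) : Sq p a b = a ^ p * Sf p (b / a) := by
  unfold Sq Sf
  rw [Finset.mul_sum]
  refine Finset.sum_congr rfl fun m hm => ?_
  have hm' := Finset.mem_Ico.1 hm
  rw [cast_quot p hp3 hm, div_pow]
  have h : a ^ p = a ^ (p - m) * a ^ m := by
    rw [← pow_add, Nat.sub_add_cancel hm'.2.le]
  rw [h]
  have ham : a ^ m ≠ 0 := pow_ne_zero _ ha
  field_simp

end SFQ_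

open SFQ_ in
theorem p_SFQ : T_SFQ := by
  intro K _ _ τ hτ p _ hp5 x y z hxyz k _ _ π hx
  have hp : p.Prime := Fact.out
  have hp0 : (p : ℤ) ≠ 0 := by exact_mod_cast hp.ne_zero
  have hpp : Prime (p : ℤ) := Nat.prime_iff_prime_int.1 hp
  have hpk : (p : k) = 0 := by
    have h : ((p : ℕ) : ZMod p) = 0 := ZMod.natCast_self p
    have h2 := congrArg (algebraMap (ZMod p) k) h
    rwa [map_natCast, map_zero] at h2
  set e : 𝓞 K := x + y + z with he_def
  have he : (p : 𝓞 K) ∣ e ^ p := MODP_.pow_add_dvd hp x y z hxyz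
  have he' : (p : 𝓞 K) ∣ (τ e) ^ p := by
    have h := map_dvd τ he
    rwa [map_natCast, map_pow] at h
  -- the norm and the trace of `e`
  obtain ⟨n1, h1⟩ := hτ.fix (e * τ e) (by rw [map_mul, hτ.invol, mul_comm])
  obtain ⟨n2, h2⟩ := hτ.fix (e + τ e) (by rw [map_add, hτ.invol, add_comm])
  have hn1 : (p : ℤ) ∣ n1 := by
    have h3 : ((p : ℤ) : 𝓞 K) ∣ ((n1 ^ p : ℤ) : 𝓞 K) := by
      rw [Int.cast_pow, ← h1, Int.cast_natCast, mul_pow]
      exact he.mul_right _
    exact hpp.dvd_of_dvd_pow (MODP_.dvd_descend hτ hp0 h3)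
  have hn2 : (p : ℤ) ∣ n2 := by
    have h3 : ((p : ℤ) : 𝓞 K) ∣ ((n2 ^ p : ℤ) : 𝓞 K) := by
      rw [Int.cast_pow, ← h2, Int.cast_natCast, pow_eq hp]
      exact dvd_add (dvd_add he he') (dvd_mul_right _ _)
    exact hpp.dvd_of_dvd_pow (MODP_.dvd_descend hτ hp0 h3)
  obtain ⟨m1, rfl⟩ := hn1
  obtain ⟨m2, rfl⟩ := hn2
  push_cast at h1 h2
  have hsq : e ^ 2 = p * (m2 * e - m1) := by
    linear_combination e * h2 - h1
  have hep : e ^ p = p * ((m2 * e - m1) * e ^ (p - 2)) := by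
    have h3 : e ^ p = e ^ 2 * e ^ (p - 2) := by
      rw [← pow_add, Nat.add_sub_cancel' (by omega)]
    rw [h3, hsq]
    ring
  -- the binomial quotient
  obtain ⟨r, hr⟩ := exists_add_pow_prime_eq hp e (-z)
  have hodd : Odd p := hp.odd_of_ne_two (by omega)
  rw [hodd.neg_pow] at hr
  have hxy : e + -z = x + y := by rw [he_def]; ring
  rw [hxy, pow_eq hp x y, hep] at hr
  have hpK : (p : 𝓞 K) ≠ 0 := by exact_mod_cast hp.ne_zero
  have hS : Sq p x y = (m2 * e - m1) * e ^ (p - 2) - e * z * r := by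
    apply mul_left_cancel₀ hpK
    linear_combination hr - hxyz
  have hpe : π e = 0 := by
    have h3 : (π e) ^ p = 0 := by
      rw [← map_pow, hep, map_mul, map_natCast, hpk, zero_mul]
    exact pow_eq_zero_iff hp.ne_zero |>.1 h3
  have hpS : π (Sq p x y) = 0 := by
    rw [hS, map_sub, map_mul, map_mul, map_mul, map_pow, hpe, zero_pow (by omega)]
    ring
  rw [map_Sq, Sq_eq p (by omega) _ _ hx] at hpS
  exact (mul_eq_zero.1 hpS).resolve_left (pow_ne_zero _ hx)

end Pool.Agent.FCM
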