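import Pool.Agent.FCM.MPA
import Pool.Agent.FCM.LGD
import Pool.Agent.FCM.KTL
import Pool.Agent.FCM.FSM
import Pool.Agent.FCM.SFQ
import Pool.Agent.FCM.MIR
import Pool.Agent.FCM.Final
import Pool.Agent.FCW.All

/-!
# First case solutions are locally trivial
-/

open NumberField IsDedekindDomain

namespace Pool.Agent.FCM

open Pool.Agent.FCW

theorem all_MIR : T_MIR := p_MIR all_KEY p_PAD p_HARM p_PRM p_MPA p_LGD p_KTL p_FSM

theorem all_FCP : T_FCP := p_FCP p_CONJ (p_DATA p_NF) p_NFI p_PAR p_MODP p_DISC p_POW all_REC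
  p_SFQ all_MIR

theorem all_FCK : T_FCK := p_FCK all_FCP

theorem final_FC (K : Type) [Field K] [NumberField K] (hK : Module.finrank ℚ K = 2) (d : ℤ)
    (hd : Squarefree d) (hd1 : d ≠ 1) (s : K) (hs : s ^ 2 = (d : K)) (p : ℕ) [Fact p.Prime]
    (h7 : 7 ≤ p) (hW : ¬ p ^ 2 ∣ 2 ^ (p - 1) - 1) (k : ℕ)
    (x y z : K) (hxyz : x * y * z ≠ 0) (h : x ^ (k * p) + y ^ (k * p) = z ^ (k * p))
    (P : HeightOneSpectrum (𝓞 K)) (hP : (p : 𝓞 K) ∈ P.asIdeal)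
    (h1 : P.valuation K x = P.valuation K y) (h2 : P.valuation K y = P.valuation K z) :
    d % 8 = 5 ∧ legendreSym p d = legendreSym p (-3) ∧
      ∀ Q : HeightOneSpectrum (𝓞 K), ((2 * p : ℕ) : 𝓞 K) ∈ Q.asIdeal →
        Q.valuation K x = Q.valuation K y ∧ Q.valuation K y = Q.valuation K z ∧
        Q.valuation K ((x ^ k) ^ 2 + x ^ k * y ^ k + (y ^ k) ^ 2) <
          Q.valuation K ((x ^ k) ^ 2) := by
  have hk : k ≠ 0 := by
    rintro rfl
    rw [zero_mul, pow_zero, pow_zero, pow_zero] at h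
    have h3 : (1 : K) = 0 := by linear_combination h
    exact one_ne_zero h3
  rw [pow_mul x, pow_mul y, pow_mul z] at h
  obtain ⟨q1, q2, q3⟩ := all_FCK K hK d hd hd1 s hs p h7 hW (x ^ k) (y ^ k) (z ^ k) (by
    rw [← mul_pow, ← mul_pow]
    exact pow_ne_zero k hxyz) h P hP (by rw [map_pow, map_pow, h1]) (by rw [map_pow, map_pow, h2])
  refine ⟨q1, q2, fun Q hQ => ?_⟩
  have hQ' : (2 : 𝓞 K) ∈ Q.asIdeal ∨ (p : 𝓞 K) ∈ Q.asIdeal := by
    apply Q.isPrime.mem_or_mem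
    have h3 : ((2 * p : ℕ) : 𝓞 K) = 2 * (p : 𝓞 K) := by push_cast; ring
    rwa [← h3]
  obtain ⟨l1, l2, l3⟩ := q3 Q hQ'
  rw [map_pow, map_pow] at l1
  rw [map_pow, map_pow] at l2
  exact ⟨(pow_left_inj₀ zero_le zero_le hk).mp l1, (pow_left_inj₀ zero_le zero_le hk).mp l2, l3⟩

end Pool.Agent.FCM
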