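import Pool.Agent.FCM.Targets
import Pool.Agent.FCW.LOCP
import Pool.Agent.FCW.Main
import Pool.Agent.FCW.MainF

/-!
# Mirimanoff's congruence for a pair of variables; local consequences
-/

open NumberField IsDedekindDomain

namespace Pool.Agent.FCM

open Pool.Agent.FCW

/-- the sum of the three variables lies in every prime above `p` -/
theorem sum_mem {K : Type} [Field K] [NumberField K] {p : ℕ} [Fact p.Prime]
    {P : Ideal (𝓞 K)} (hP : P.IsPrime) (hpP : (p : 𝓞 K) ∈ P) {x y z : 𝓞 K}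
    (h : x ^ p + y ^ p + z ^ p = 0) : x + y + z ∈ P := by
  have hp : p.Prime := Fact.out
  obtain ⟨r, hr⟩ := exists_add_pow_prime_eq hp x y
  obtain ⟨s, hs⟩ := exists_add_pow_prime_eq hp (x + y) z
  apply hP.mem_of_pow_mem p
  have h1 : (x + y + z) ^ p = (p : 𝓞 K) * (x * y * r + (x + y) * z * s) := by
    rw [hs, hr]
    linear_combination h
  rw [h1]
  exact P.mul_mem_right _ hpP

/-- Mirimanoff's congruence for the pair `u, v` -/
theorem mirim (hPOW : T_POW) (hSFQ : T_SFQ) (hMIR : T_MIR) {K : Type} [Field K] [NumberField K]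
    (hK : Module.finrank ℚ K = 2) {τ : 𝓞 K ≃+* 𝓞 K} (hτ : IsConj K τ) {p : ℕ} [Fact p.Prime]
    (h5 : 5 ≤ p) (hW : ¬ p ^ 2 ∣ 2 ^ (p - 1) - 1) {P : Ideal (𝓞 K)} (hP : P.IsPrime)
    (hpP : (p : 𝓞 K) ∈ P) {u v w : 𝓞 K} (hu0 : u ≠ 0) (hv0 : v ≠ 0)
    (h : u ^ p + v ^ p + w ^ p = 0) (hu : u ∉ P) (hu' : τ u ∉ P) (hw : w ∉ P) (hw' : τ w ∉ P)
    {g A T B : ℤ} (hg : g ≠ 0) (hN : NF K τ u v g A T B) : (p : ℤ) ∣ T * (A - B) := by
  have hp : p.Prime := Fact.out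
  have hP0 : P ≠ ⊥ := by
    intro h0
    rw [h0, Ideal.mem_bot] at hpP
    exact hp.ne_zero (by exact_mod_cast hpP)
  have hmax : P.IsMaximal := hP.isMaximal hP0
  let _ : Field (𝓞 K ⧸ P) := Ideal.Quotient.field P
  let π : 𝓞 K →+* 𝓞 K ⧸ P := Ideal.Quotient.mk P
  have hπ : ∀ a, π a = 0 ↔ a ∈ P := fun a => Ideal.Quotient.eq_zero_iff_mem
  have hchar : CharP (𝓞 K ⧸ P) p := by
    have h1 : ((p : ℕ) : 𝓞 K ⧸ P) = 0 := by
      rw [← map_natCast π]
      exact (hπ _).mpr hpP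
    exact (CharP.charP_iff_prime_eq_zero hp).mpr h1
  let _ : Algebra (ZMod p) (𝓞 K ⧸ P) := ZMod.algebra _ p
  have h' : (τ u) ^ p + (τ v) ^ p + (τ w) ^ p = 0 := by
    rw [← map_pow, ← map_pow, ← map_pow, ← map_add, ← map_add, h, map_zero]
  have a1 : π u ≠ 0 := fun h => hu ((hπ _).mp h)
  have a2 : π (τ u) ≠ 0 := fun h => hu' ((hπ _).mp h)
  have e1 : π u * π (τ u) = (g : 𝓞 K ⧸ P) * (A : 𝓞 K ⧸ P) := by
    rw [← map_mul, hN.hA, map_mul, map_intCast, map_intCast]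
  have e2 : π u * π (τ v) + π v * π (τ u) = (g : 𝓞 K ⧸ P) * (T : 𝓞 K ⧸ P) := by
    rw [← map_mul, ← map_mul, ← map_add, hN.hT, map_mul, map_intCast, map_intCast]
  have e3 : π v * π (τ v) = (g : 𝓞 K ⧸ P) * (B : 𝓞 K ⧸ P) := by
    rw [← map_mul, hN.hB, map_mul, map_intCast, map_intCast]
  have hgA : (g : 𝓞 K ⧸ P) * (A : 𝓞 K ⧸ P) ≠ 0 := by
    rw [← e1]
    exact mul_ne_zero a1 a2
  have hg1 : (g : 𝓞 K ⧸ P) ≠ 0 := left_ne_zero_of_mul hgA
  -- the sum is a unit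
  have hsum : ¬ (p : ℤ) ∣ A + T + B := by
    intro hcon
    have h1 : ((A + T + B : ℤ) : 𝓞 K) ∈ P := (LOCP_.int_mem hp hP hpP).mpr hcon
    have h2 : (u + v) * (τ u + τ v) ∈ P := by
      have h3 : (u + v) * (τ u + τ v) = (g : 𝓞 K) * ((A + T + B : ℤ) : 𝓞 K) := by
        push_cast
        linear_combination hN.hA + hN.hT + hN.hB
      rw [h3]
      exact P.mul_mem_left _ h1
    rcases hP.mem_or_mem h2 with h3 | h3
    · apply hw
      have h4 := sum_mem hP hpP h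
      have h5 : w = (u + v + w) - (u + v) := by ring
      rw [h5]
      exact P.sub_mem h4 h3
    · apply hw'
      have h4 := sum_mem hP hpP h'
      have h5 : τ w = (τ u + τ v + τ w) - (τ u + τ v) := by ring
      rw [h5]
      exact P.sub_mem h4 h3
  have hcow : IsCoprime w (p : 𝓞 K) := EP_.coprime_of hτ hP hpP hw hw'
  have hI := hPOW K hK τ hτ p h5 u v w hu0 hv0 h hcow g A T B hg hN
  refine hMIR p h5 hW A T B hN.prim hsum hI (𝓞 K ⧸ P) (π v / π u) (π (τ v) / π (τ u)) ?_ ?_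
    (hSFQ K τ hτ p h5 u v w h _ π a1) (hSFQ K τ hτ p h5 (τ u) (τ v) (τ w) h' _ π a2)
  · apply mul_left_cancel₀ hg1
    rw [← mul_assoc, ← e1, ← e2]
    field_simp
    ring
  · apply mul_left_cancel₀ hg1
    rw [← mul_assoc, ← e1, ← e3]
    field_simp

/-- the solution looks locally at `Q` like the trivial one -/
def Lc (K : Type) [Field K] [NumberField K] (Q : HeightOneSpectrum (𝓞 K)) (x y z : K) : Prop :=
  Q.valuation K x = Q.valuation K y ∧ Q.valuation K y = Q.valuation K z ∧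
    Q.valuation K (x ^ 2 + x * y + y ^ 2) < Q.valuation K (x ^ 2)

theorem Lc_scale {K : Type} [Field K] [NumberField K] {Q : HeightOneSpectrum (𝓞 K)}
    {x y z l x' y' z' : K} (hl : l ≠ 0) (hx : x' = l * x) (hy : y' = l * y) (hz : z' = l * z)
    (h : Lc K Q x' y' z') : Lc K Q x y z := by
  have v0 : Q.valuation K l ≠ 0 := by rwa [Valuation.ne_zero_iff]
  obtain ⟨h1, h2, h3⟩ := h
  rw [hx, hy, map_mul, map_mul] at h1
  rw [hy, hz, map_mul, map_mul] at h2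
  have e1 : (l * x) ^ 2 + l * x * (l * y) + (l * y) ^ 2 = l ^ 2 * (x ^ 2 + x * y + y ^ 2) := by
    ring
  rw [hx, hy, e1, mul_pow, map_mul, map_mul] at h3
  refine ⟨mul_left_cancel₀ v0 h1, mul_left_cancel₀ v0 h2, ?_⟩
  have v2 : Q.valuation K (l ^ 2) ≠ 0 := by
    rw [map_pow]
    exact pow_ne_zero 2 v0
  exact (mul_lt_mul_iff_of_pos_left (zero_lt_iff.mpr v2)).mp h3

/-- equal valuations at the primes at which both norm quotients are units -/
theorem val_eq {K : Type} [Field K] [NumberField K] {τ : 𝓞 K ≃+* 𝓞 K}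
    {Q : HeightOneSpectrum (𝓞 K)} {x y : 𝓞 K} {g A T B : ℤ} (hg : g ≠ 0) (hN : NF K τ x y g A T B)
    (hA : (A : 𝓞 K) ∉ Q.asIdeal) (hB : (B : 𝓞 K) ∉ Q.asIdeal) :
    Q.valuation K (x : K) = Q.valuation K (y : K) := by
  have vA : Q.valuation K (algebraMap (𝓞 K) K (A : 𝓞 K)) = 1 :=
    (HeightOneSpectrum.valuation_eq_one_iff_notMem Q).mpr hA
  have vB : Q.valuation K (algebraMap (𝓞 K) K (B : 𝓞 K)) = 1 :=
    (HeightOneSpectrum.valuation_eq_one_iff_notMem Q).mpr hB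
  have hgO : (g : 𝓞 K) ≠ 0 := by exact_mod_cast hg
  have vg : Q.valuation K (algebraMap (𝓞 K) K (g : 𝓞 K)) ≠ 0 := by
    rw [Valuation.ne_zero_iff, Ne, FaithfulSMul.algebraMap_eq_zero_iff]
    exact hgO
  have e1 : Q.valuation K (algebraMap (𝓞 K) K x) * Q.valuation K (algebraMap (𝓞 K) K (τ x)) =
      Q.valuation K (algebraMap (𝓞 K) K (g : 𝓞 K)) := by
    rw [← map_mul, ← map_mul, hN.hA, map_mul, map_mul, vA, mul_one]
  have e2 : Q.valuation K (algebraMap (𝓞 K) K y) * Q.valuation K (algebraMap (𝓞 K) K (τ y)) =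
      Q.valuation K (algebraMap (𝓞 K) K (g : 𝓞 K)) := by
    rw [← map_mul, ← map_mul, hN.hB, map_mul, map_mul, vB, mul_one]
  have mem : ∀ r s : 𝓞 K, r ∈ Ideal.span {x, y} → s ∈ Ideal.span {x, y} →
      Q.valuation K (algebraMap (𝓞 K) K r) * Q.valuation K (algebraMap (𝓞 K) K (τ s)) ≤
      Q.valuation K (algebraMap (𝓞 K) K (g : 𝓞 K)) := by
    intro r s hr hs
    have h1 : r * τ s ∈ Ideal.span {x, y} * (Ideal.span {x, y}).map (τ : 𝓞 K →+* 𝓞 K) :=
      Ideal.mul_mem_mul hr (Ideal.mem_map_of_mem (τ : 𝓞 K →+* 𝓞 K) hs)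
    rw [hN.ideal, Ideal.mem_span_singleton] at h1
    obtain ⟨t, ht⟩ := h1
    rw [← map_mul, ← map_mul, ht, map_mul, map_mul]
    exact mul_le_of_le_one_right' (HeightOneSpectrum.valuation_le_one Q t)
  have m1 := mem x y (Ideal.subset_span (by simp)) (Ideal.subset_span (by simp))
  have m2 := mem y x (Ideal.subset_span (by simp)) (Ideal.subset_span (by simp))
  have nx : Q.valuation K (algebraMap (𝓞 K) K (τ x)) ≠ 0 := right_ne_zero_of_mul (by rw [e1]; exact vg)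
  have ny : Q.valuation K (algebraMap (𝓞 K) K (τ y)) ≠ 0 := right_ne_zero_of_mul (by rw [e2]; exact vg)
  rw [← e2] at m1
  rw [← e1] at m2
  exact le_antisymm ((mul_le_mul_iff_left₀ (zero_lt_iff.mpr ny)).mp m1)
    ((mul_le_mul_iff_left₀ (zero_lt_iff.mpr nx)).mp m2)

/-- local triviality from congruences between the norm quotients -/
theorem Lc_of {K : Type} [Field K] [NumberField K] {τ : 𝓞 K ≃+* 𝓞 K}
    {Q : HeightOneSpectrum (𝓞 K)} {q : ℕ} (hq : q.Prime) (hqQ : (q : 𝓞 K) ∈ Q.asIdeal)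
    {x y z : 𝓞 K} {g a b c T₁ T₃ : ℤ} (hg : g ≠ 0) (N₁ : NF K τ x y g a T₁ b)
    (N₃ : NF K τ y z g b T₃ c) (ha : ¬ (q : ℤ) ∣ a) (hb : ¬ (q : ℤ) ∣ b) (hc : ¬ (q : ℤ) ∣ c)
    (h1 : (q : ℤ) ∣ a - b) (h2 : (q : ℤ) ∣ T₁ + b) :
    Lc K Q (x : K) (y : K) (z : K) := by
  have im := fun n : ℤ => LOCP_.int_mem (n := n) hq Q.isPrime hqQ
  have hA : (a : 𝓞 K) ∉ Q.asIdeal := fun h => ha ((im a).mp h)
  have hB : (b : 𝓞 K) ∉ Q.asIdeal := fun h => hb ((im b).mp h)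
  have hC : (c : 𝓞 K) ∉ Q.asIdeal := fun h => hc ((im c).mp h)
  have v1 := val_eq hg N₁ hA hB
  have v2 := val_eq hg N₃ hB hC
  refine ⟨v1, v2, ?_⟩
  have vA : Q.valuation K (algebraMap (𝓞 K) K (a : 𝓞 K)) = 1 :=
    (HeightOneSpectrum.valuation_eq_one_iff_notMem Q).mpr hA
  have vB : Q.valuation K (algebraMap (𝓞 K) K (b : 𝓞 K)) = 1 :=
    (HeightOneSpectrum.valuation_eq_one_iff_notMem Q).mpr hB
  have hgO : (g : 𝓞 K) ≠ 0 := by exact_mod_cast hg
  have vg : Q.valuation K (algebraMap (𝓞 K) K (g : 𝓞 K)) ≠ 0 := by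
    rw [Valuation.ne_zero_iff, Ne, FaithfulSMul.algebraMap_eq_zero_iff]
    exact hgO
  have e1 : Q.valuation K (algebraMap (𝓞 K) K x) * Q.valuation K (algebraMap (𝓞 K) K (τ x)) =
      Q.valuation K (algebraMap (𝓞 K) K (g : 𝓞 K)) := by
    rw [← map_mul, ← map_mul, N₁.hA, map_mul, map_mul, vA, mul_one]
  have e2 : Q.valuation K (algebraMap (𝓞 K) K y) * Q.valuation K (algebraMap (𝓞 K) K (τ y)) =
      Q.valuation K (algebraMap (𝓞 K) K (g : 𝓞 K)) := by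
    rw [← map_mul, ← map_mul, N₁.hB, map_mul, map_mul, vB, mul_one]
  obtain ⟨k, hk⟩ := h1
  obtain ⟨l, hl⟩ := h2
  have hk' : (a : 𝓞 K) - b = (q : 𝓞 K) * k := by
    exact_mod_cast congrArg (Int.cast : ℤ → 𝓞 K) hk
  have hl' : (T₁ : 𝓞 K) + b = (q : 𝓞 K) * l := by
    exact_mod_cast congrArg (Int.cast : ℤ → 𝓞 K) hl
  have key : (x ^ 2 + x * y + y ^ 2) * (τ x * τ y) =
      (q : 𝓞 K) * ((g : 𝓞 K) * (g * (a * l)) - g * (k * (y * τ x))) := by
    linear_combination (x * τ y) * N₁.hA + (g : 𝓞 K) * a * N₁.hT +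
      (y * τ y) * N₁.hA + (g : 𝓞 K) * a * N₁.hB + (y * τ x) * N₁.hB +
      (g : 𝓞 K) ^ 2 * a * hl' - (g : 𝓞 K) * (y * τ x) * hk'
  have vq : Q.valuation K (algebraMap (𝓞 K) K (q : 𝓞 K)) < 1 :=
    (HeightOneSpectrum.valuation_lt_one_iff_mem Q _).mpr hqQ
  have le1 : ∀ t : 𝓞 K, Q.valuation K (algebraMap (𝓞 K) K t) ≤ 1 :=
    fun t => HeightOneSpectrum.valuation_le_one Q t
  set G := Q.valuation K (algebraMap (𝓞 K) K (g : 𝓞 K)) with hG
  have b1 : Q.valuation K (algebraMap (𝓞 K) K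
      ((g : 𝓞 K) * (g * (a * l)) - g * (k * (y * τ x)))) ≤ G * G := by
    rw [map_sub]
    refine (Valuation.map_sub _ _ _).trans (max_le ?_ ?_)
    · rw [map_mul, map_mul, map_mul, map_mul]
      exact mul_le_mul_right (mul_le_of_le_one_right' (le1 _)) _
    · rw [map_mul, map_mul, map_mul, map_mul, map_mul, map_mul]
      refine mul_le_mul_right ?_ _
      have h3 : Q.valuation K (algebraMap (𝓞 K) K y) *
          Q.valuation K (algebraMap (𝓞 K) K (τ x)) = G := by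
        rw [← e1]
        congr 1
        exact v1.symm
      rw [h3]
      exact mul_le_of_le_one_left' (le1 _)
  have b2 : Q.valuation K (algebraMap (𝓞 K) K (x ^ 2 + x * y + y ^ 2)) *
      (Q.valuation K (algebraMap (𝓞 K) K (τ x)) * Q.valuation K (algebraMap (𝓞 K) K (τ y))) <
      G * G := by
    rw [← map_mul, ← map_mul, ← map_mul, ← map_mul, key, map_mul, map_mul]
    refine (mul_le_mul_right b1 _).trans_lt ?_
    exact mul_lt_of_lt_one_left (zero_lt_iff.mpr (mul_ne_zero vg vg)) vq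
  have nx : Q.valuation K (algebraMap (𝓞 K) K (τ x)) ≠ 0 := right_ne_zero_of_mul (by rw [e1]; exact vg)
  have ny : Q.valuation K (algebraMap (𝓞 K) K (τ y)) ≠ 0 := right_ne_zero_of_mul (by rw [e2]; exact vg)
  have b3 : G * G = Q.valuation K (algebraMap (𝓞 K) K x) ^ 2 *
      (Q.valuation K (algebraMap (𝓞 K) K (τ x)) * Q.valuation K (algebraMap (𝓞 K) K (τ y))) := by
    have h3 : G = Q.valuation K (algebraMap (𝓞 K) K x) *
        Q.valuation K (algebraMap (𝓞 K) K (τ y)) := by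
      rw [← e2]
      congr 1
      exact v1.symm
    calc G * G = (Q.valuation K (algebraMap (𝓞 K) K x) *
          Q.valuation K (algebraMap (𝓞 K) K (τ x))) *
          (Q.valuation K (algebraMap (𝓞 K) K x) *
          Q.valuation K (algebraMap (𝓞 K) K (τ y))) := by rw [e1, ← h3]
      _ = _ := by rw [mul_mul_mul_comm, ← pow_two]
  rw [b3] at b2
  have b4 := (mul_lt_mul_iff_left₀ (zero_lt_iff.mpr (mul_ne_zero nx ny))).mp b2
  rw [map_pow]
  have e5 : ((x : K) ^ 2 + (x : K) * (y : K) + (y : K) ^ 2) =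
      algebraMap (𝓞 K) K (x ^ 2 + x * y + y ^ 2) := by
    rw [map_add, map_add, map_mul, map_pow, map_pow]
  rw [e5]
  exact b4

end Pool.Agent.FCM
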