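import Mathlib
import Pool.Agent.FCM.Targets
import Pool.Agent.FCW.EIA
import Pool.Agent.FCW.EIB

/-!
# The key equation modulo `p` in `F_p[X]` (job FCM-MPA)
-/

open NumberField Polynomial

namespace Pool.Agent.FCM

open Pool.Agent.FCW

namespace MPA_

variable (p : ℕ) [Fact p.Prime]

/-- the integral version of `Wp` -/
noncomputable def Wz (A T B : ℤ) (s : ZMod p) : ℤ[X] :=
  ∏ u ∈ half p, FX A T B (s * ((u⁻¹ : (ZMod p)ˣ) : ZMod p)).val

theorem rd_Wz (A T B : ℤ) (s : ZMod p) :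
    EIB_.rd p (Wz p A T B s) = Wp p (A : ZMod p) (T : ZMod p) (B : ZMod p) s := by
  unfold Wz Wp
  rw [map_prod]
  refine Finset.prod_congr rfl fun u _ => ?_
  rw [EIB_.rd_FX]
  rfl

theorem st_eq (A T B : ℤ) : st p (Fz p A T B) = aeval (zt p) (Wz p A T B 1) := by
  unfold st Wz
  rw [map_prod]
  refine Finset.prod_congr rfl fun u _ => ?_
  rw [EIA_.aeval_FX, one_mul]
  exact EIA_.sg_Fz p u⁻¹ A T B _ (ZMod.natCast_zmod_val _).symm

theorem cc_st_eq (A T B : ℤ) : cc p (st p (Fz p A T B)) = aeval (zt p) (Wz p A T B (-1)) := by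
  unfold st Wz
  rw [map_prod, map_prod]
  refine Finset.prod_congr rfl fun u _ => ?_
  rw [EIA_.aeval_FX]
  have h1 : cc p (sg p u⁻¹ (Fz p A T B)) = sg p (-1 * u⁻¹) (Fz p A T B) := by
    rw [sg_mul]
    rfl
  rw [h1]
  apply EIA_.sg_Fz
  rw [ZMod.natCast_zmod_val]
  push_cast
  rfl

theorem rpi_Wz (A T B : ℤ) (s : ZMod p) : EIA_.rpi p (aeval (zt p) (Wz p A T B s)) =
    EIA_.rpi p ((A + T + B : ℤ) : Oc p) ^ (half p).card := by
  unfold Wz
  rw [map_prod, map_prod, ← Finset.prod_const]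
  refine Finset.prod_congr rfl fun u _ => ?_
  rw [EIA_.aeval_FX, EIA_.rpi_Pj]

end MPA_

open MPA_ in
theorem p_MPA : T_MPA := by
  intro p _ hp A T B hN γ n i e ⟨hn, hγ, he, hkey⟩
  have hpp : p.Prime := Fact.out
  have hpi := EIA_.pi_prime p
  -- `γ` is prime to `ζ - 1`
  have hγpi : ¬ zt p - 1 ∣ γ := by
    intro h
    have h1 : zt p - 1 ∣ ((n : ℤ) : Oc p) := by
      rw [Int.cast_natCast, ← hγ]
      exact h.mul_right _
    rw [EIA_.pi_dvd_int, Int.natCast_dvd_natCast] at h1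
    have h11 : Nat.Coprime p n := (Nat.Coprime.coprime_mul_left_right hn).symm
    have h2 := Nat.dvd_gcd (dvd_refl p) h1
    rw [h11] at h2
    exact hpp.one_lt.ne' (Nat.dvd_one.1 h2)
  obtain ⟨g, hg, h1, h2⟩ := EIA_.pow_p_unit p γ hγpi
  rw [st_eq] at hkey
  have hcc : cc p (aeval (zt p) (Wz p A T B 1)) = aeval (zt p) (Wz p A T B (-1)) := by
    rw [← st_eq, cc_st_eq]
  rw [hcc] at hkey
  -- the sign
  have he1 : e = 1 := by
    rcases he with he | he
    · exact he
    · exfalso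
      have h3 : EIA_.rpi p (γ ^ p) = EIA_.rpi p (cc p γ ^ p) := by
        rw [EIA_.rpi_eq]
        refine (EIA_.pi_dvd_p p).trans ?_
        rw [← EIA_.red_eq, map_pow, map_pow, h1, h2]
      have h4 := congrArg (EIA_.rpi p) hkey
      rw [map_mul, map_mul, map_mul, map_mul, rpi_Wz, rpi_Wz, EIA_.rpi_zt, ← h3, he,
        ← map_pow, ← map_mul] at h4
      have h5 : EIA_.rpi p (2 * (((A + T + B : ℤ) : Oc p) ^ (half p).card * γ ^ p)) =
          EIA_.rpi p 0 := by
        rw [two_mul, map_add, map_zero]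
        nth_rewrite 1 [h4]
        rw [map_mul]
        push_cast
        simp only [map_neg, map_one]
        ring
      rw [EIA_.rpi_eq, sub_zero] at h5
      rcases hpi.dvd_or_dvd h5 with h6 | h6
      · have h7 : zt p - 1 ∣ ((2 : ℤ) : Oc p) := by exact_mod_cast h6
        rw [EIA_.pi_dvd_int] at h7
        have h8 := Int.le_of_dvd (by norm_num) h7
        omega
      · rcases hpi.dvd_or_dvd h6 with h7 | h7
        · have h8 := hpi.dvd_of_dvd_pow h7
          rw [EIA_.pi_dvd_int] at h8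
          exact hN h8
        · exact hγpi (hpi.dvd_of_dvd_pow h7)
  -- the equation modulo `p`
  have h3 := congrArg (EIA_.red p) hkey
  rw [he1, Int.cast_one, one_mul, map_mul, map_mul, map_pow, map_pow (EIA_.red p) γ, h1, h2] at h3
  have h4 := hg.mul_right_cancel h3
  rw [EIA_.red_eq] at h4
  have h5 := EIB_.dvd_red p (Wz p A T B 1 - X ^ i * Wz p A T B (-1)) (by
    rw [map_sub, map_mul, map_pow, aeval_X]
    exact h4)
  rw [map_sub, map_mul, map_pow, rd_Wz, rd_Wz] at h5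
  have hX : EIB_.rd p X = X := by simp
  rwa [hX] at h5

end Pool.Agent.FCM
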